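import Pool.Agent.Work.MP_216d61_lc.Interface2

/-!
# Block CO: computability of the certificate
-/

set_option autoImplicit false

namespace Pool.Agent.Work.MP_216d61_lc

open Function Pool.Agent.Work.MP_a32fd7_lc

/-! ### The arithmetical certificate -/

/-- Certificate with lists of edges and the code of a graph which contains the chain. -/
def CCert (a b r m : ℕ) (l0 l1 lA : List (ℕ × ℕ)) (g : ℕ) : Prop :=
  1 ≤ m ∧ (∀ i < l0.length, ∀ j < i, l0[i]? ≠ l0[j]?) ∧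
  (∀ i < l1.length, ∀ j < i, l1[i]? ≠ l1[j]?) ∧ (∀ i < lA.length, ∀ j < i, lA[i]? ≠ lA[j]?) ∧
  (∀ p ∈ l0, p.1 < p.2 ∧ p.2 < m ∧ ∀ i < NB (r + m) a + 2,
    BA (r + (NB (r + m) a + 2) * m) g (r + (p.1 + m * i)) (r + (p.2 + m * i))) ∧
  (∀ p ∈ l1, p.1 < m ∧ p.2 < m ∧ ∀ i < NB (r + m) a + 1,
    BA (r + (NB (r + m) a + 2) * m) g (r + (p.1 + m * i)) (r + (p.2 + m * (i + 1)))) ∧
  (∀ p ∈ lA, p.1 < r ∧ p.2 < m ∧ ∀ i < NB (r + m) a + 2,
    BA (r + (NB (r + m) a + 2) * m) g p.1 (r + (p.2 + m * i))) ∧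
  (b + 1) * (l0.length + l1.length + lA.length) = a * m ∧
  MR ((a : ℝ) / ((b : ℝ) + 1)) (GG (r + (NB (r + m) a + 2) * m) g)

theorem BA_symm {n g i j : ℕ} (h : BA n g i j) : BA n g j i := ⟨h.1.symm, h.2.symm⟩

theorem exists_list2 {r m : ℕ} (A : Fin r → Fin m → Prop) : ∃ L : List (ℕ × ℕ), L.Nodup ∧
    (∀ p ∈ L, ∃ (h1 : p.1 < r) (h2 : p.2 < m), A ⟨p.1, h1⟩ ⟨p.2, h2⟩) ∧
    L.length = (@Finset.filter (Fin r × Fin m) (fun p => A p.1 p.2) (Classical.decPred _)
      Finset.univ).card := by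
  classical
  set E := (Finset.univ.filter fun p : Fin r × Fin m => A p.1 p.2) with hE
  set T := E.image fun p => ((p.1 : ℕ), (p.2 : ℕ)) with hT
  have hinj : Injective fun p : Fin r × Fin m => ((p.1 : ℕ), (p.2 : ℕ)) := by
    intro p q hpq
    simp only [Prod.mk.injEq] at hpq
    exact Prod.ext (Fin.ext hpq.1) (Fin.ext hpq.2)
  refine ⟨T.toList, T.nodup_toList, ?_, ?_⟩
  · intro p hp
    rw [Finset.mem_toList] at hp
    obtain ⟨q, hq, rfl⟩ := Finset.mem_image.1 hp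
    exact ⟨q.1.2, q.2.2, (Finset.mem_filter.1 hq).2⟩
  · rw [Finset.length_toList, hT, Finset.card_image_of_injective _ hinj, hE]

theorem card_list2 {r m : ℕ} {L : List (ℕ × ℕ)}
    [DecidablePred fun p : Fin r × Fin m => ((p.1 : ℕ), (p.2 : ℕ)) ∈ L]
    (hL : L.Nodup) (h : ∀ p ∈ L, p.1 < r ∧ p.2 < m) :
    (Finset.univ.filter fun p : Fin r × Fin m => ((p.1 : ℕ), (p.2 : ℕ)) ∈ L).card =
      L.length := by
  rw [← List.toFinset_card_of_nodup hL]
  refine Finset.card_bij (fun p _ => ((p.1 : ℕ), (p.2 : ℕ))) ?_ ?_ ?_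
  · intro p hp
    rw [Finset.mem_filter] at hp
    exact List.mem_toFinset.2 hp.2
  · intro p _ q _ hpq
    simp only [Prod.mk.injEq] at hpq
    exact Prod.ext (Fin.ext hpq.1) (Fin.ext hpq.2)
  · intro p hp
    have h1 := List.mem_toFinset.1 hp
    exact ⟨(⟨p.1, (h p h1).1⟩, ⟨p.2, (h p h1).2⟩), Finset.mem_filter.2 ⟨Finset.mem_univ _, h1⟩, rfl⟩

/-- the graph of a list of pairs -/
def LG (m : ℕ) (L : List (ℕ × ℕ)) (h : ∀ p ∈ L, p.1 < p.2) : SimpleGraph (Fin m) where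
  Adj x y := ((x : ℕ), (y : ℕ)) ∈ L ∨ ((y : ℕ), (x : ℕ)) ∈ L
  symm := ⟨fun _ _ h => h.symm⟩
  loopless := ⟨fun x hx => by
    rcases hx with hx | hx
    · exact absurd (h _ hx) (lt_irrefl _)
    · exact absurd (h _ hx) (lt_irrefl _)⟩

theorem e2_LG {m : ℕ} {L : List (ℕ × ℕ)} (hL : L.Nodup) (h : ∀ p ∈ L, p.1 < p.2)
    (hm : ∀ p ∈ L, p.2 < m) : e2 (LG m L h) = 2 * L.length := by
  classical
  refine le_antisymm ?_ (length_le_e2 hL fun p hp => ⟨h p hp, (h p hp).trans (hm p hp), hm p hp,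
    Or.inl hp⟩)
  have h1 : e2 (LG m L h) ≤ (L.toFinset ∪ L.toFinset.image Prod.swap).card := by
    rw [e2]
    refine Finset.card_le_card_of_injOn (fun p => ((p.1 : ℕ), (p.2 : ℕ))) ?_ ?_
    · intro p hp
      have h2 : ((p.1 : ℕ), (p.2 : ℕ)) ∈ L ∨ ((p.2 : ℕ), (p.1 : ℕ)) ∈ L :=
        (Finset.mem_filter.1 (Finset.mem_coe.1 hp)).2
      rw [Finset.mem_coe, Finset.mem_union]
      rcases h2 with h2 | h2
      · exact Or.inl (List.mem_toFinset.2 h2)
      · exact Or.inr (Finset.mem_image.2 ⟨_, List.mem_toFinset.2 h2, rfl⟩)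
    · intro p _ q _ hpq
      simp only [Prod.mk.injEq] at hpq
      exact Prod.ext (Fin.ext hpq.1) (Fin.ext hpq.2)
  have h2 := Finset.card_union_le L.toFinset (L.toFinset.image Prod.swap)
  have h3 : (L.toFinset.image Prod.swap).card ≤ L.toFinset.card := Finset.card_image_le
  rw [List.toFinset_card_of_nodup hL] at h2 h3
  omega

/-- numbering of the vertices of a chain -/
def numb (r m n : ℕ) : Fin r ⊕ Fin n × Fin m ≃ Fin (r + n * m) :=
  (Equiv.sumCongr (Equiv.refl _) finProdFinEquiv).trans finSumFinEquiv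

theorem numb_inl (r m n : ℕ) (x : Fin r) : (numb r m n (.inl x) : ℕ) = x := by simp [numb]

theorem numb_inr (r m n : ℕ) (p : Fin n × Fin m) :
    (numb r m n (.inr p) : ℕ) = r + (p.2 + m * p.1) := by
  simp [numb, finProdFinEquiv]

theorem ccert_iff {a b : ℕ} : (∃ (r m : ℕ) (c : Chn (Fin r) (Fin m)), Exact a b c ∧
    MR ((a : ℝ) / ((b : ℝ) + 1)) (c.G (NB (r + m) a + 2))) ↔
    ∃ (r m : ℕ) (l0 l1 lA : List (ℕ × ℕ)) (g : ℕ), CCert a b r m l0 l1 lA g := by
  classical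
  constructor
  · rintro ⟨r, m, c, ⟨hm, hex⟩, hMR⟩
    set L := NB (r + m) a + 2 with hL
    obtain ⟨l0, h1, h2, h3⟩ := exists_list c.E0
    obtain ⟨l1, h4, h5, h6⟩ := exists_list2 c.E1
    obtain ⟨lA, h7, h8, h9⟩ := exists_list2 c.A
    have h10 := length_le_e2 h1 h2
    obtain ⟨g, -, hg⟩ := exists_code ((c.G L).comap (numb r m L).symm)
    have hadj : ∀ x y : Fin r ⊕ Fin L × Fin m, (c.G L).Adj x y →
        BA (r + L * m) g (numb r m L x) (numb r m L y) := by
      intro x y hxy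
      have h11 : (GG (r + L * m) g).Adj (numb r m L x) (numb r m L y) := by
        rw [hg, SimpleGraph.comap_adj, Equiv.symm_apply_apply, Equiv.symm_apply_apply]
        exact hxy
      exact h11
    refine ⟨r, m, l0, l1, lA, g, hm, get_of_nodup h1, get_of_nodup h4, get_of_nodup h7, ?_, ?_, ?_,
      ?_, ?_⟩
    · intro p hp
      obtain ⟨hlt, h11, h12, h13⟩ := h2 p hp
      refine ⟨hlt, h12, fun i hi => ?_⟩
      have h14 := hadj (.inr (⟨i, hi⟩, ⟨p.1, h11⟩)) (.inr (⟨i, hi⟩, ⟨p.2, h12⟩))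
        (Or.inl ⟨rfl, h13⟩)
      rw [numb_inr, numb_inr] at h14
      exact h14
    · intro p hp
      obtain ⟨h11, h12, h13⟩ := h5 p hp
      refine ⟨h11, h12, fun i hi => ?_⟩
      have h14 := hadj (.inr (⟨i, by omega⟩, ⟨p.1, h11⟩)) (.inr (⟨i + 1, by omega⟩, ⟨p.2, h12⟩))
        (Or.inr (Or.inl ⟨rfl, h13⟩))
      rw [numb_inr, numb_inr] at h14
      exact h14
    · intro p hp
      obtain ⟨h11, h12, h13⟩ := h8 p hp
      refine ⟨h11, h12, fun i hi => ?_⟩
      have h14 := hadj (.inl ⟨p.1, h11⟩) (.inr (⟨i, hi⟩, ⟨p.2, h12⟩)) h13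
      rw [numb_inl, numb_inr] at h14
      exact h14
    · have h11 : c.ce = e2 c.E0 + 2 * l1.length + 2 * lA.length := by
        rw [h6, h9]
        rfl
      have h12 : e2 c.E0 = 2 * l0.length := by omega
      rw [h11, h12] at hex
      have h13 : (b + 1) * (2 * l0.length + 2 * l1.length + 2 * lA.length) =
          2 * ((b + 1) * (l0.length + l1.length + lA.length)) := by ring
      have h14 : 2 * a * m = 2 * (a * m) := by ring
      rw [h13, h14] at hex
      omega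
    · rw [hg]
      exact hMR.minor (minor_of_inj (numb r m L).symm (Equiv.injective _) fun i j h => h)
  · rintro ⟨r, m, l0, l1, lA, g, hm, h1, h2, h3, h4, h5, h6, h7, h8⟩
    have h1' := nodup_of_get h1
    have h2' := nodup_of_get h2
    have h3' := nodup_of_get h3
    set L := NB (r + m) a + 2 with hL
    refine ⟨r, m, ⟨LG m l0 fun p hp => (h4 p hp).1, fun x y => ((x : ℕ), (y : ℕ)) ∈ l1,
      fun x y => ((x : ℕ), (y : ℕ)) ∈ lA⟩, ⟨hm, ?_⟩, ?_⟩
    · unfold Chn.ce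
      simp only
      rw [e2_LG h1' _ fun p hp => (h4 p hp).2.1,
        card_list2 h2' fun p hp => ⟨(h5 p hp).1, (h5 p hp).2.1⟩,
        card_list2 h3' fun p hp => ⟨(h6 p hp).1, (h6 p hp).2.1⟩]
      calc (b + 1) * (2 * l0.length + 2 * l1.length + 2 * lA.length) =
          2 * ((b + 1) * (l0.length + l1.length + lA.length)) := by ring
        _ = 2 * a * m := by rw [h7]; ring
    · refine h8.minor (minor_of_inj (numb r m L) (Equiv.injective _) ?_)
      rintro (x | ⟨i, x⟩) (y | ⟨j, y⟩) hxy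
      · exact hxy.elim
      · show BA _ _ _ _
        rw [numb_inl, numb_inr]
        exact (h6 _ hxy).2.2 j j.2
      · show BA _ _ _ _
        rw [numb_inl, numb_inr]
        exact BA_symm ((h6 _ hxy).2.2 i i.2)
      · show BA _ _ _ _
        rw [numb_inr, numb_inr]
        rcases hxy with ⟨h9, h10⟩ | ⟨h9, h10⟩ | ⟨h9, h10⟩
        · simp only at h9
          subst h9
          rcases h10 with h10 | h10
          · exact (h4 _ h10).2.2 i i.2
          · exact BA_symm ((h4 _ h10).2.2 i i.2)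
        · have h11 := j.2
          simp only at h9
          have h12 := (h5 _ h10).2.2 i (by omega)
          rw [h9] at h12
          exact h12
        · have h11 := i.2
          simp only at h9
          have h12 := (h5 _ h10).2.2 j (by omega)
          rw [h9] at h12
          exact BA_symm h12

/-! ### Computability -/

section comp

variable {α : Type*} [Primcodable α]

theorem prim_NB {s a : α → ℕ} (hs : Primrec s) (ha : Primrec a) :
    Primrec fun x => NB (s x) (a x) :=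
  prim_two_pow (prim_mul (prim_mul (prim_mul (prim_pow (Primrec.succ.comp hs) hs)
    (prim_two_pow (prim_mul hs hs))) (prim_two_pow (prim_mul hs hs)))
    (prim_add (prim_mul (prim_mul (Primrec.const 2) ha) hs) (Primrec.const 3)))

theorem sone_MR {a b n g : α → ℕ} (ha : Primrec a) (hb : Primrec b) (hn : Primrec n)
    (hg : Primrec g) : SOne fun x => MR ((a x : ℝ) / ((b x : ℝ) + 1)) (GG (n x) (g x)) := by
  refine SOne.of_eq (p := fun x => ∀ m < n x + 1, ∀ w < (n x + 1) ^ n x,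
    NBr (n x) (g x) m w ∨ ∃ L, FewM (a x) (b x) (n x) (g x) m w L) ?_ fun x => MR_code.symm
  refine SOne.forall_lt (p := fun x m => ∀ w < (n x + 1) ^ n x, NBr (n x) (g x) m w ∨
    ∃ L, FewM (a x) (b x) (n x) (g x) m w L) ?_ (Primrec.succ.comp hn)
  refine SOne.forall_lt (p := fun (x : α × ℕ) w => NBr (n x.1) (g x.1) x.2 w ∨
    ∃ L, FewM (a x.1) (b x.1) (n x.1) (g x.1) x.2 w L) ?_
    (prim_pow (Primrec.succ.comp (hn.comp Primrec.fst)) (hn.comp Primrec.fst))
  have h1 : Primrec fun z : (α × ℕ) × ℕ => z.1.1 := Primrec.fst.comp Primrec.fst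
  have h2 : Primrec fun z : (α × ℕ) × ℕ => z.1.2 := Primrec.snd.comp Primrec.fst
  refine (sone_NBr (hn.comp h1) (hg.comp h1) h2 Primrec.snd).or ?_
  refine SOne.exists (p := fun (x : (α × ℕ) × ℕ) L =>
    FewM (a x.1.1) (b x.1.1) (n x.1.1) (g x.1.1) x.1.2 x.2 L) ?_
  exact sone_FewM (ha.comp (h1.comp Primrec.fst)) (hb.comp (h1.comp Primrec.fst))
    (hn.comp (h1.comp Primrec.fst)) (hg.comp (h1.comp Primrec.fst)) (h2.comp Primrec.fst)
    (Primrec.snd.comp Primrec.fst) Primrec.snd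

theorem sone_nodup {L : α → List (ℕ × ℕ)} (hL : Primrec L) :
    SOne fun x => ∀ i < (L x).length, ∀ j < i, (L x)[i]? ≠ (L x)[j]? := by
  refine SOne.forall_lt (p := fun x i => ∀ j < i, (L x)[i]? ≠ (L x)[j]?) ?_
    (Primrec.list_length.comp hL)
  refine SOne.forall_lt (p := fun (w : α × ℕ) j => (L w.1)[w.2]? ≠ (L w.1)[j]?) ?_ Primrec.snd
  have h1 : Primrec fun z : (α × ℕ) × ℕ => z.1.1 := Primrec.fst.comp Primrec.fst
  have h2 : Primrec fun z : (α × ℕ) × ℕ => z.1.2 := Primrec.snd.comp Primrec.fst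
  have h3 : Primrec fun z : (α × ℕ) × ℕ => z.2 := Primrec.snd
  exact SOne.of_primrecPred (PrimrecPred.not (PrimrecRel.comp Primrec.eq
    (Primrec.list_getElem?.comp (hL.comp h1) h2) (Primrec.list_getElem?.comp (hL.comp h1) h3)))

/-- bounded quantification over the periods and the elements of a list -/
theorem sone_list {L : α → List (ℕ × ℕ)} {k : α → ℕ}
    {n g : α → ℕ} {f1 f2 : α → (ℕ × ℕ) → ℕ → ℕ} {q : α → ℕ × ℕ → Prop}
    (hL : Primrec L) (hk : Primrec k) (hn : Primrec n) (hg : Primrec g)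
    (h1 : Primrec fun z : (α × (ℕ × ℕ)) × ℕ => f1 z.1.1 z.1.2 z.2)
    (h2 : Primrec fun z : (α × (ℕ × ℕ)) × ℕ => f2 z.1.1 z.1.2 z.2)
    (hq : SOne fun z : α × (ℕ × ℕ) => q z.1 z.2) :
    SOne fun x => ∀ p ∈ L x, q x p ∧ ∀ i < k x, BA (n x) (g x) (f1 x p i) (f2 x p i) := by
  refine SOne.forall_mem_list (p := fun x (p : ℕ × ℕ) => q x p ∧
    ∀ i < k x, BA (n x) (g x) (f1 x p i) (f2 x p i)) ?_ hL
  refine hq.and ?_
  refine SOne.forall_lt (p := fun (z : α × (ℕ × ℕ)) i =>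
    BA (n z.1) (g z.1) (f1 z.1 z.2 i) (f2 z.1 z.2 i)) ?_ (hk.comp Primrec.fst)
  exact sone_BA (hn.comp (Primrec.fst.comp Primrec.fst)) (hg.comp (Primrec.fst.comp Primrec.fst))
    h1 h2

theorem sone_CCert {a b r m g : α → ℕ} {l0 l1 lA : α → List (ℕ × ℕ)} (ha : Primrec a)
    (hb : Primrec b) (hr : Primrec r) (hm : Primrec m) (hg : Primrec g) (h0 : Primrec l0)
    (h1 : Primrec l1) (hA : Primrec lA) :
    SOne fun x => CCert (a x) (b x) (r x) (m x) (l0 x) (l1 x) (lA x) (g x) := by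
  have hN : Primrec fun x => NB (r x + m x) (a x) := prim_NB (prim_add hr hm) ha
  have hN1 : Primrec fun x => NB (r x + m x) (a x) + 1 := Primrec.succ.comp hN
  have hN2 : Primrec fun x => NB (r x + m x) (a x) + 2 := prim_add hN (Primrec.const 2)
  have hn : Primrec fun x => r x + (NB (r x + m x) (a x) + 2) * m x :=
    prim_add hr (prim_mul hN2 hm)
  have z0 : Primrec fun z : (α × (ℕ × ℕ)) × ℕ => z.1.1 := Primrec.fst.comp Primrec.fst
  have z1 : Primrec fun z : (α × (ℕ × ℕ)) × ℕ => z.1.2.1 :=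
    Primrec.fst.comp (Primrec.snd.comp Primrec.fst)
  have z2 : Primrec fun z : (α × (ℕ × ℕ)) × ℕ => z.1.2.2 :=
    Primrec.snd.comp (Primrec.snd.comp Primrec.fst)
  have z3 : Primrec fun z : (α × (ℕ × ℕ)) × ℕ => z.2 := Primrec.snd
  have y1 : Primrec fun z : α × (ℕ × ℕ) => z.2.1 := Primrec.fst.comp Primrec.snd
  have y2 : Primrec fun z : α × (ℕ × ℕ) => z.2.2 := Primrec.snd.comp Primrec.snd
  have yr : Primrec fun z : α × (ℕ × ℕ) => r z.1 := hr.comp Primrec.fst
  have ym : Primrec fun z : α × (ℕ × ℕ) => m z.1 := hm.comp Primrec.fst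
  have hrr := hr.comp z0
  have hmm := hm.comp z0
  unfold CCert
  refine (sone_le (Primrec.const 1) hm).and ((sone_nodup h0).and ((sone_nodup h1).and
    ((sone_nodup hA).and (SOne.and ?_ (SOne.and ?_ (SOne.and ?_ (SOne.and ?_ ?_)))))))
  · refine (sone_list (q := fun x p => p.1 < p.2 ∧ p.2 < m x)
      (f1 := fun x p i => r x + (p.1 + m x * i)) (f2 := fun x p i => r x + (p.2 + m x * i))
      h0 hN2 hn hg ?_ ?_ ?_).of_eq ?_
    · exact prim_add hrr (prim_add z1 (prim_mul hmm z3))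
    · exact prim_add hrr (prim_add z2 (prim_mul hmm z3))
    · exact (sone_lt y1 y2).and (sone_lt y2 ym)
    · intro x
      exact forall₂_congr fun p _ => and_assoc
  · refine (sone_list (q := fun x p => p.1 < m x ∧ p.2 < m x)
      (f1 := fun x p i => r x + (p.1 + m x * i)) (f2 := fun x p i => r x + (p.2 + m x * (i + 1)))
      h1 hN1 hn hg ?_ ?_ ?_).of_eq ?_
    · exact prim_add hrr (prim_add z1 (prim_mul hmm z3))
    · exact prim_add hrr (prim_add z2 (prim_mul hmm (Primrec.succ.comp z3)))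
    · exact (sone_lt y1 ym).and (sone_lt y2 ym)
    · intro x
      exact forall₂_congr fun p _ => and_assoc
  · refine (sone_list (q := fun x p => p.1 < r x ∧ p.2 < m x)
      (f1 := fun x p i => p.1) (f2 := fun x p i => r x + (p.2 + m x * i))
      hA hN2 hn hg ?_ ?_ ?_).of_eq ?_
    · exact z1
    · exact prim_add hrr (prim_add z2 (prim_mul hmm z3))
    · exact (sone_lt y1 yr).and (sone_lt y2 ym)
    · intro x
      exact forall₂_congr fun p _ => and_assoc
  · exact sone_eq (prim_mul (Primrec.succ.comp hb) (prim_add (prim_add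
      (Primrec.list_length.comp h0) (Primrec.list_length.comp h1))
      (Primrec.list_length.comp hA))) (prim_mul ha hm)
  · exact sone_MR ha hb hn hg

theorem stmt_CO : Stmt_CO := by
  refine SOne.rePred (SOne.of_eq ?_ fun p => ccert_iff.symm)
  have key : SOne fun p : ℕ × ℕ => ∃ t : (ℕ × ℕ) × (List (ℕ × ℕ) × List (ℕ × ℕ)) ×
      (List (ℕ × ℕ) × ℕ), CCert p.1 p.2 t.1.1 t.1.2 t.2.1.1 t.2.1.2 t.2.2.1 t.2.2.2 := by
    refine SOne.exists (p := fun (p : ℕ × ℕ) (t : (ℕ × ℕ) × (List (ℕ × ℕ) × List (ℕ × ℕ)) ×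
      (List (ℕ × ℕ) × ℕ)) => CCert p.1 p.2 t.1.1 t.1.2 t.2.1.1 t.2.1.2 t.2.2.1 t.2.2.2) ?_
    have t0 := Primrec.snd (α := ℕ × ℕ) (β := (ℕ × ℕ) × (List (ℕ × ℕ) × List (ℕ × ℕ)) ×
      (List (ℕ × ℕ) × ℕ))
    have t1 := Primrec.fst.comp t0
    have t2 := Primrec.fst.comp (Primrec.snd.comp t0)
    have t3 := Primrec.snd.comp (Primrec.snd.comp t0)
    exact sone_CCert (Primrec.fst.comp Primrec.fst) (Primrec.snd.comp Primrec.fst)
      (Primrec.fst.comp t1) (Primrec.snd.comp t1) (Primrec.snd.comp t3) (Primrec.fst.comp t2)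
      (Primrec.snd.comp t2) (Primrec.fst.comp t3)
  refine key.of_eq fun p => ?_
  constructor
  · rintro ⟨⟨⟨r, m⟩, ⟨l0, l1⟩, ⟨lA, g⟩⟩, h⟩
    exact ⟨r, m, l0, l1, lA, g, h⟩
  · rintro ⟨r, m, l0, l1, lA, g, h⟩
    exact ⟨⟨⟨r, m⟩, ⟨l0, l1⟩, ⟨lA, g⟩⟩, h⟩

end comp

end Pool.Agent.Work.MP_216d61_lc
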