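import Pool.Agent.Work.MP_216d61_lc_helper79.TM1

/-!
# Block CX: from a pumpable context to a periodic chain
-/

set_option autoImplicit false

namespace Pool.Agent.Work.MP_216d61_lc

open Function

section cx

variable {s : ℕ}

/-- the vertices of the graph obtained by executing the context `n` times -/
def ZV (c : Ctx s) : ℕ → Type
  | 0 => Fin s
  | n + 1 => ZV c n ⊕ c.I

/-- the graph and the labels after `n` executions of the context -/
def ZG (c : Ctx s) : (n : ℕ) → SimpleGraph (ZV c n) × (Fin s → ZV c n)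
  | 0 => (⊥, id)
  | n + 1 => (Glue (ZG c n).1 (ZG c n).2 c.H c.A, c.lift (ZG c n).2)

theorem ZG_inj (c : Ctx s) : ∀ n, Injective (ZG c n).2
  | 0 => injective_id
  | n + 1 => c.lift_injective _ (ZG_inj c n)

theorem MR_ZG_t {ρ : ℝ} (c : Ctx s) (t : Tm s) (h : TEq ρ (c.plug t) t) (ht : MR ρ t.B) :
    ∀ n, MR ρ (Glue (ZG c n).1 (ZG c n).2 t.H t.A)
  | 0 => ht
  | n + 1 => by
    have ih := MR_ZG_t c t h ht n
    rw [← h _ _ _ (ZG_inj c n), MR_glue_plug] at ih
    exact ih

theorem MR_ZG {ρ : ℝ} (c : Ctx s) (t : Tm s) (h : TEq ρ (c.plug t) t) (ht : MR ρ t.B) (n : ℕ) :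
    MR ρ (ZG c n).1 :=
  (MR_ZG_t c t h ht n).minor (minor_of_inj Sum.inl Sum.inl_injective fun _ _ hxy => hxy)

noncomputable instance Ctx.fintypeI : (c : Ctx s) → Fintype c.I
  | .hole => (inferInstance : Fintype Empty)
  | .left _ _ c u =>
    have := Ctx.fintypeI c
    (inferInstance : Fintype (Unit ⊕ (c.I ⊕ u.I)))
  | .right _ _ t c =>
    have := Ctx.fintypeI c
    (inferInstance : Fintype (Unit ⊕ (t.I ⊕ c.I)))

noncomputable instance fintypeZV (c : Ctx s) : (n : ℕ) → Fintype (ZV c n)
  | 0 => (inferInstance : Fintype (Fin s))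
  | n + 1 =>
    have := fintypeZV c n
    (inferInstance : Fintype (ZV c n ⊕ c.I))

/-- the context with a leaf -/
noncomputable def Ctx.leafEquiv (c : Ctx s) : c.I ≃ (c.plug .leaf).I :=
  Equiv.ofBijective (fun x => c.pi .leaf (.inl x)) (by
    refine ⟨fun x y h => Sum.inl_injective (c.pi_injective .leaf h), fun y => ?_⟩
    obtain ⟨x | x, hx⟩ := c.pi_surjective .leaf y
    · exact ⟨x, hx⟩
    · exact (x : Empty).elim)

theorem Ctx.card_I (c : Ctx s) : Fintype.card c.I = c.size := by
  have h1 := Fintype.card_congr c.leafEquiv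
  rw [h1, Tm.fcard_I, c.size_plug]
  rfl

theorem card_ZV (c : Ctx s) : ∀ n, Fintype.card (ZV c n) = s + n * c.size
  | 0 => by
    show Fintype.card (Fin s) = _
    simp
  | n + 1 => by
    have ih := card_ZV c n
    show Fintype.card (ZV c n ⊕ c.I) = _
    rw [Fintype.card_sum, ih, c.card_I]
    ring

/-- twice the number of edges of a context -/
theorem tau2_ctx (c : Ctx s) : tau2 c.H c.A = 2 * c.edg := by
  classical
  have h1 := tau2_term (c.plug .leaf)
  rw [c.edg_plug, tau2_eq_sum] at h1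
  rw [tau2_eq_sum]
  have h2 : (∑ x : c.I, ∑ y : c.I, if c.H.Adj x y then 1 else 0) =
      ∑ x : (c.plug .leaf).I, ∑ y : (c.plug .leaf).I, if (c.plug .leaf).H.Adj x y then 1 else 0 := by
    refine Fintype.sum_equiv c.leafEquiv _ _ fun x => Fintype.sum_equiv c.leafEquiv _ _ fun y => ?_
    have := c.R_inl_inl .leaf x y
    exact if_congr this.symm rfl rfl
  have h3 : (∑ b : Fin s, ∑ y : c.I, if c.A b y then 1 else 0) =
      ∑ b : Fin s, ∑ y : (c.plug .leaf).I, if (c.plug .leaf).A b y then 1 else 0 := by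
    refine Finset.sum_congr rfl fun b _ => Fintype.sum_equiv c.leafEquiv _ _ fun y => ?_
    have := c.A_inl .leaf b y
    exact if_congr this.symm rfl rfl
  rw [h2, h3, h1]
  simp [Tm.edg]

theorem e2_ZG (c : Ctx s) : ∀ n, e2 (ZG c n).1 = n * (2 * c.edg)
  | 0 => by
    show e2 (⊥ : SimpleGraph (Fin s)) = _
    rw [e2_bot]
    simp
  | n + 1 => by
    have ih := e2_ZG c n
    show e2 (Glue (ZG c n).1 (ZG c n).2 c.H c.A) = _
    rw [e2_glue _ _ (ZG_inj c n), ih, tau2_ctx]
    ring

/-- coordinates -/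
def zco (c : Ctx s) : (n : ℕ) → ZV c n → Fin s ⊕ ℕ × c.I
  | 0 => Sum.inl
  | n + 1 => fun v => match v with
    | .inl v => zco c n v
    | .inr x => .inr (n, x)

theorem zco_lt (c : Ctx s) : ∀ n (v : ZV c n) i x, zco c n v = .inr (i, x) → i < n
  | 0, _, _, _, h => absurd h (by exact Sum.inl_ne_inr)
  | n + 1, v, i, x, h => by
    rcases v with v | y
    · have := zco_lt c n v i x h
      omega
    · have h1 : ((n, y) : ℕ × c.I) = (i, x) := Sum.inr_injective h
      have h2 : n = i := (Prod.ext_iff.1 h1).1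
      omega

theorem zco_injective (c : Ctx s) : ∀ n, Injective (zco c n)
  | 0 => Sum.inl_injective
  | n + 1 => by
    have ih := zco_injective c n
    rintro (v | x) (v' | x') h
    · exact congrArg Sum.inl (ih h)
    · have h1 : zco c n v = .inr (n, x') := h
      exact absurd (zco_lt c n v _ _ h1) (lt_irrefl _)
    · have h1 : zco c n v' = .inr (n, x) := h.symm
      exact absurd (zco_lt c n v' _ _ h1) (lt_irrefl _)
    · have h1 : ((n, x) : ℕ × c.I) = (n, x') := Sum.inr_injective h
      exact congrArg Sum.inr (Prod.ext_iff.1 h1).2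

theorem zco_surj_inl (c : Ctx s) (b : Fin s) : ∀ n, ∃ v : ZV c n, zco c n v = .inl b
  | 0 => ⟨b, rfl⟩
  | n + 1 => by
    obtain ⟨v, hv⟩ := zco_surj_inl c b n
    exact ⟨.inl v, hv⟩

theorem zco_surj_inr (c : Ctx s) (i : ℕ) (x : c.I) : ∀ n, i < n →
    ∃ v : ZV c n, zco c n v = .inr (i, x)
  | 0, h => by omega
  | n + 1, h => by
    rcases Nat.lt_or_ge i n with h1 | h1
    · obtain ⟨v, hv⟩ := zco_surj_inr c i x n h1
      exact ⟨.inl v, hv⟩
    · have h2 : i = n := by omega
      subst h2
      exact ⟨.inr x, rfl⟩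

theorem zco_root (c : Ctx s) (b : Fin s) (hb : c.l b = .inl b) : ∀ n,
    zco c n ((ZG c n).2 b) = .inl b
  | 0 => rfl
  | n + 1 => by
    have ih := zco_root c b hb n
    have h1 : (ZG c (n + 1)).2 b = .inl ((ZG c n).2 b) := by
      show c.lift (ZG c n).2 b = _
      rw [c.lift_eq_inl]
      exact ⟨hb, rfl⟩
    rw [h1]
    exact ih

theorem zco_prev (c : Ctx s) (b : Fin s) (x : c.I) (hb : c.l b = .inr x) (n : ℕ) :
    zco c (n + 1) ((ZG c (n + 1)).2 b) = .inr (n, x) := by
  have h1 : (ZG c (n + 1)).2 b = .inr x := by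
    show c.lift (ZG c n).2 b = _
    rw [c.lift_eq_inr]
    exact hb
  rw [h1]
  rfl

/-- the chain of a context -/
def Ctx.chn (c : Ctx s) : Chn (Fin s) c.I where
  E0 := c.H
  E1 x y := ∃ b, c.l b = .inr x ∧ c.A b y
  A b x := c.l b = .inl b ∧ c.A b x

theorem zadj_root (c : Ctx s) (b : Fin s) (i : ℕ) (x : c.I) (h : c.chn.A b x) :
    ∀ n (v w : ZV c n), zco c n v = .inl b → zco c n w = .inr (i, x) → (ZG c n).1.Adj v w
  | 0, _, _, _, hw => absurd hw (by exact Sum.inl_ne_inr)
  | n + 1, v, w, hv, hw => by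
    rcases v with v | y
    · rcases w with w | z
      · exact zadj_root c b i x h n v w hv hw
      · have h1 : ((n, z) : ℕ × c.I) = (i, x) := Sum.inr_injective hw
        obtain ⟨h2, h3⟩ := Prod.ext_iff.1 h1
        simp only at h2 h3
        subst h2
        subst h3
        refine ⟨b, ?_, h.2⟩
        apply zco_injective c n
        rw [zco_root c b h.1]
        exact hv.symm
    · exact absurd hv (by exact Sum.inr_ne_inl)

theorem zadj_E0 (c : Ctx s) (i : ℕ) (x y : c.I) (h : c.H.Adj x y) :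
    ∀ n (v w : ZV c n), zco c n v = .inr (i, x) → zco c n w = .inr (i, y) → (ZG c n).1.Adj v w
  | 0, _, _, _, hw => absurd hw (by exact Sum.inl_ne_inr)
  | n + 1, v, w, hv, hw => by
    rcases v with v | x'
    · have h0 := zco_lt c n v _ _ hv
      rcases w with w | z
      · exact zadj_E0 c i x y h n v w hv hw
      · have h1 : ((n, z) : ℕ × c.I) = (i, y) := Sum.inr_injective hw
        have h2 : n = i := (Prod.ext_iff.1 h1).1
        omega
    · have h1 : ((n, x') : ℕ × c.I) = (i, x) := Sum.inr_injective hv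
      obtain ⟨h2, h3⟩ := Prod.ext_iff.1 h1
      simp only at h2 h3
      rcases w with w | z
      · have h0 := zco_lt c n w _ _ hw
        omega
      · have h4 : ((n, z) : ℕ × c.I) = (i, y) := Sum.inr_injective hw
        have h5 : z = y := (Prod.ext_iff.1 h4).2
        subst h3
        subst h5
        exact h

theorem zadj_E1 (c : Ctx s) (i : ℕ) (x y : c.I) (h : c.chn.E1 x y) :
    ∀ n (v w : ZV c n), zco c n v = .inr (i, x) → zco c n w = .inr (i + 1, y) →
      (ZG c n).1.Adj v w
  | 0, _, _, _, hw => absurd hw (by exact Sum.inl_ne_inr)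
  | n + 1, v, w, hv, hw => by
    rcases w with w | z
    · have h0 := zco_lt c n w _ _ hw
      rcases v with v | x'
      · exact zadj_E1 c i x y h n v w hv hw
      · have h1 : ((n, x') : ℕ × c.I) = (i, x) := Sum.inr_injective hv
        have h2 : n = i := (Prod.ext_iff.1 h1).1
        omega
    · have h1 : ((n, z) : ℕ × c.I) = (i + 1, y) := Sum.inr_injective hw
      obtain ⟨h2, h3⟩ := Prod.ext_iff.1 h1
      simp only at h2 h3
      rcases v with v | x'
      · subst h2
        subst h3
        obtain ⟨b, hb, hA⟩ := h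
        refine ⟨b, ?_, hA⟩
        apply zco_injective c (i + 1)
        rw [zco_prev c b x hb]
        exact hv.symm
      · have h4 : ((n, x') : ℕ × c.I) = (i, x) := Sum.inr_injective hv
        have h5 : n = i := (Prod.ext_iff.1 h4).1
        omega

/-- The chain is contained in the graph obtained by repeated execution. -/
theorem chn_minor (c : Ctx s) (n : ℕ) : Minor (c.chn.G n) (ZG c n).1 := by
  classical
  have hex : ∀ p : Fin s ⊕ Fin n × c.I, ∃ v : ZV c n, zco c n v =
      Sum.map id (Prod.map (fun i : Fin n => (i : ℕ)) id) p := by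
    rintro (b | ⟨i, x⟩)
    · exact zco_surj_inl c b n
    · exact zco_surj_inr c i x n i.2
  choose φ hφ using hex
  have hinj : Injective (Sum.map id (Prod.map (fun i : Fin n => (i : ℕ)) id) :
      Fin s ⊕ Fin n × c.I → Fin s ⊕ ℕ × c.I) :=
    Sum.map_injective.2 ⟨injective_id, Fin.val_injective.prodMap injective_id⟩
  refine minor_of_inj φ (fun p q h => hinj ?_) ?_
  · rw [← hφ, ← hφ, h]
  · rintro (b | ⟨i, x⟩) (b' | ⟨i', x'⟩) hpq
    · exact hpq.elim
    · exact zadj_root c b i' x' hpq n _ _ (hφ _) (hφ _)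
    · exact (zadj_root c b' i x hpq n _ _ (hφ _) (hφ _)).symm
    · rcases hpq with ⟨h1, h2⟩ | ⟨h1, h2⟩ | ⟨h1, h2⟩
      · simp only at h1
        subst h1
        exact zadj_E0 c i x x' h2 n _ _ (hφ _) (hφ _)
      · refine zadj_E1 c i x x' h2 n _ _ (hφ _) ?_
        rw [hφ]
        simp only at h1
        simp [← h1]
      · refine (zadj_E1 c i' x' x h2 n _ _ (hφ _) ?_).symm
        rw [hφ]
        simp only at h1
        simp [← h1]

/-- transport of a chain -/
def Chn.comap {R M M' : Type} (e : M' ≃ M) (c : Chn R M) : Chn R M' where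
  E0 := c.E0.comap e
  E1 x y := c.E1 (e x) (e y)
  A a x := c.A a (e x)

theorem Chn.comap_minor {R M M' : Type} (e : M' ≃ M) (c : Chn R M) (n : ℕ) :
    Minor ((c.comap e).G n) (c.G n) := by
  refine minor_of_inj (Sum.map id (Prod.map id e)) (Sum.map_injective.2
    ⟨injective_id, injective_id.prodMap e.injective⟩) ?_
  rintro (b | ⟨i, x⟩) (b' | ⟨i', x'⟩) hpq
  · exact hpq.elim
  · exact hpq
  · exact hpq
  · exact hpq

theorem card_filter_equiv {α β : Type*} [Fintype α] [Fintype β] (e : α ≃ β) (p : α → Prop)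
    (q : β → Prop) [DecidablePred p] [DecidablePred q] (h : ∀ x, p x ↔ q (e x)) :
    (Finset.univ.filter p).card = (Finset.univ.filter q).card := by
  refine Finset.card_bij (fun x _ => e x) ?_ ?_ ?_
  · intro x hx
    rw [Finset.mem_filter] at hx ⊢
    exact ⟨Finset.mem_univ _, (h x).1 hx.2⟩
  · intro x _ y _ hxy
    exact e.injective hxy
  · intro y hy
    rw [Finset.mem_filter] at hy
    refine ⟨e.symm y, ?_, e.apply_symm_apply y⟩
    rw [Finset.mem_filter, h, e.apply_symm_apply]
    exact ⟨Finset.mem_univ _, hy.2⟩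

theorem Chn.comap_ce {R M M' : Type} [Fintype R] [Fintype M] [Fintype M'] (e : M' ≃ M)
    (c : Chn R M) : (c.comap e).ce = c.ce := by
  classical
  have h1 : e2 (c.comap e).E0 = e2 c.E0 := by
    rw [e2, e2]
    convert card_filter_equiv (Equiv.prodCongr e e) _ _ _ using 1
    rintro ⟨x, y⟩
    exact Iff.rfl
  have h2 : (Finset.univ.filter fun p : M' × M' => (c.comap e).E1 p.1 p.2).card =
      (Finset.univ.filter fun p : M × M => c.E1 p.1 p.2).card := by
    refine card_filter_equiv (Equiv.prodCongr e e) _ _ ?_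
    rintro ⟨x, y⟩
    exact Iff.rfl
  have h3 : (Finset.univ.filter fun p : R × M' => (c.comap e).A p.1 p.2).card =
      (Finset.univ.filter fun p : R × M => c.A p.1 p.2).card := by
    refine card_filter_equiv (Equiv.prodCongr (Equiv.refl R) e) _ _ ?_
    rintro ⟨x, y⟩
    exact Iff.rfl
  unfold Chn.ce
  rw [h1]
  congr 2
  exact congrArg (2 * ·) (by convert h2)

/-- the number of edges per period -/
theorem ce_chn (c : Ctx s) : c.chn.ce = 2 * c.edg := by
  classical
  rw [← tau2_ctx, tau2_eq_sum]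
  unfold Chn.ce
  have h1 : e2 c.chn.E0 = ∑ x, ∑ y, if c.H.Adj x y then 1 else 0 := by
    rw [e2_eq_sum]
    rfl
  have h2 : (Finset.univ.filter fun p : c.I × c.I => c.chn.E1 p.1 p.2).card +
      (Finset.univ.filter fun p : Fin s × c.I => c.chn.A p.1 p.2).card =
      ∑ a : Fin s, ∑ y : c.I, if c.A a y then 1 else 0 := by
    have h3 := cross_sum c.l c.l_injective c.A
    rw [← h3, Fintype.sum_sum_type, Finset.card_filter, Finset.card_filter,
      Fintype.sum_prod_type, Fintype.sum_prod_type, add_comm]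
    refine congrArg₂ (· + ·) ?_ ?_
    · refine Finset.sum_congr rfl fun b _ => Finset.sum_congr rfl fun y _ => ?_
      have h7 : c.chn.A b y ↔ ∃ a, c.l a = Sum.inl b ∧ c.A a y := by
        constructor
        · intro h
          exact ⟨b, h.1, h.2⟩
        · rintro ⟨b', h4, h5⟩
          have h6 := c.l_inl b' b h4
          subst h6
          exact ⟨h4, h5⟩
      by_cases h8 : c.chn.A b y
      · rw [if_pos h8, if_pos (h7.1 h8)]
      · rw [if_neg h8, if_neg fun h9 => h8 (h7.2 h9)]
    · refine Finset.sum_congr rfl fun x _ => Finset.sum_congr rfl fun y _ => ?_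
      have h7 : c.chn.E1 x y ↔ ∃ a, c.l a = Sum.inr x ∧ c.A a y := Iff.rfl
      by_cases h8 : c.chn.E1 x y
      · rw [if_pos h8, if_pos (h7.1 h8)]
      · rw [if_neg h8, if_neg fun h9 => h8 (h7.2 h9)]
  rw [h1, ← h2]
  ring

theorem stmt_CX : Stmt_CX := by
  intro a b s c t hc hteq ht hle
  set e : Fin (Fintype.card c.I) ≃ c.I := (Fintype.equivFin c.I).symm
  refine ⟨s, Fintype.card c.I, c.chn.comap e, ⟨?_, ?_⟩, ?_⟩
  · rw [c.card_I]
    exact c.size_pos hc
  · rw [Chn.comap_ce, ce_chn, c.card_I]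
    have h1 : (b + 1) * c.edg ≤ a * c.size := by
      by_contra hcon
      push Not at hcon
      have h2 := (MR_ZG c t hteq ht (a * s + 1)).self
      rw [e2_ZG, Nat.card_eq_fintype_card, card_ZV] at h2
      push_cast at h2
      have hb : (0 : ℝ) < (b : ℝ) + 1 := by positivity
      have h3 : ((b : ℝ) + 1) * (((a : ℝ) * s + 1) * (2 * c.edg)) ≤
          2 * (a * (s + (a * s + 1) * c.size)) := by
        calc ((b : ℝ) + 1) * (((a : ℝ) * s + 1) * (2 * c.edg)) ≤
            ((b : ℝ) + 1) * (2 * (a / (b + 1)) * (s + (a * s + 1) * c.size)) :=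
              mul_le_mul_of_nonneg_left h2 hb.le
          _ = _ := by field_simp
      have h4 : ((b : ℝ) + 1) * c.edg ≥ a * c.size + 1 := by
        have : a * c.size + 1 ≤ (b + 1) * c.edg := hcon
        exact_mod_cast this
      have h5 : (0 : ℝ) ≤ (a : ℝ) * s := by positivity
      nlinarith
    have h6 : (b + 1) * c.edg = a * c.size := le_antisymm h1 hle
    calc (b + 1) * (2 * c.edg) = 2 * ((b + 1) * c.edg) := by ring
      _ = 2 * a * c.size := by rw [h6]; ring
  · intro n
    exact (MR_ZG c t hteq ht n).minor ((Chn.comap_minor e c.chn n).trans (chn_minor c n))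

end cx

end Pool.Agent.Work.MP_216d61_lc
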