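import Pool.Agent.Work.MP_216d61_lc_helper79.FI
import Pool.Agent.Work.MP_216d61_lc_helper79.CX
import Pool.Agent.Work.MP_216d61_lc_helper52.ET

/-!
# Block EX: existence of an exact periodic chain
-/

set_option autoImplicit false

namespace Pool.Agent.Work.MP_216d61_lc

open Function

theorem stmt_EX : Stmt_EX := by
  classical
  intro a b hBT
  obtain ⟨w, hw⟩ := hBT
  by_cases hex : ∃ m : ℕ, 1 ≤ m ∧ ∃ G : SimpleGraph (Fin m), MR ((a : ℝ) / ((b : ℝ) + 1)) G ∧
      (b + 1) * e2 G = 2 * a * m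
  · obtain ⟨m, hm, G, hG, he⟩ := hex
    refine ⟨0, m, ⟨G, fun _ _ => False, fun _ _ => False⟩, ⟨hm, ?_⟩, ?_⟩
    · simp only [Chn.ce, Finset.filter_false, Finset.card_empty, mul_zero, add_zero]
      exact he
    · intro n
      refine (hG.copies n).minor (minor_of_inj id injective_id ?_)
      rintro (x | ⟨i, x⟩) (y | ⟨j, y⟩) h
      · exact h.elim
      · exact h.elim
      · exact h.elim
      · rcases h with ⟨h1, h2⟩ | ⟨_, h2⟩ | ⟨_, h2⟩
        · exact ⟨h1, h2⟩
        · exact h2.elim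
        · exact h2.elim
  · have hTM : ∃ (c : Ctx (w + 1)) (t : Tm (w + 1)), c ≠ .hole ∧
        TEq ((a : ℝ) / ((b : ℝ) + 1)) (c.plug t) t ∧ MR ((a : ℝ) / ((b : ℝ) + 1)) t.B ∧
        a * c.size ≤ (b + 1) * c.edg := by
      apply stmt_TM stmt_FI
      intro k
      set D : ℕ := 2 * (k + 1) * (a * (w + 1) + 2) with hD
      have hDpos : (0 : ℝ) < D := by positivity
      have hb : (0 : ℝ) < (b : ℝ) + 1 := by positivity
      obtain ⟨m, hm, G, hTW, hMR, hlt⟩ := hw (1 / (((b : ℝ) + 1) * D)) (by positivity)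
      have hlt0 := hMR.self
      obtain ⟨t, ht1, ht2, ht3⟩ := stmt_ET w m G hTW
      have hMt := ht3 _ (by positivity) hMR
      refine ⟨t, hMt, ?_⟩
      rw [Nat.card_eq_fintype_card, Fintype.card_fin] at hlt0
      have h1 : ((b : ℝ) + 1) * (e2 G : ℝ) ≤ 2 * a * m := by
        calc ((b : ℝ) + 1) * (e2 G : ℝ) ≤ ((b : ℝ) + 1) * (2 * ((a : ℝ) / ((b : ℝ) + 1)) * m) :=
              mul_le_mul_of_nonneg_left hlt0 hb.le
          _ = 2 * a * m := by field_simp
      have h2 : (b + 1) * e2 G ≤ 2 * a * m := by exact_mod_cast h1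
      have h3 : (b + 1) * e2 G ≠ 2 * a * m := fun h => hex ⟨m, hm, G, hMR, h⟩
      have h4 : (2 * a * m : ℝ) - 2 * m / D < ((b : ℝ) + 1) * (e2 G : ℝ) := by
        calc (2 * a * m : ℝ) - 2 * m / D = ((b : ℝ) + 1) *
              (2 * ((a : ℝ) / ((b : ℝ) + 1) - 1 / (((b : ℝ) + 1) * D)) * m) := by
                field_simp
          _ < ((b : ℝ) + 1) * (e2 G : ℝ) := mul_lt_mul_of_pos_left hlt hb
      have h5 : ((2 * a * m : ℝ) - ((b : ℝ) + 1) * (e2 G : ℝ)) * D < 2 * m := by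
        have h6 : (2 * a * m : ℝ) - ((b : ℝ) + 1) * (e2 G : ℝ) < 2 * m / D := by linarith
        rwa [lt_div_iff₀ hDpos] at h6
      rw [← ht2, ← ht1] at h5 h2 h3
      have h7 : ((2 * a * t.size : ℤ) - ((b : ℤ) + 1) * (2 * t.edg : ℕ)) * D < 2 * t.size := by
        exact_mod_cast h5
      have h8 : (1 : ℤ) ≤ (a : ℤ) * t.size - (b + 1) * t.edg := by
        have h9 : (b + 1) * (2 * t.edg) < 2 * a * t.size := lt_of_le_of_ne h2 h3
        have h10 : ((b : ℤ) + 1) * (2 * t.edg) < 2 * a * t.size := by exact_mod_cast h9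
        have h11 : ((b : ℤ) + 1) * (2 * t.edg) = 2 * (((b : ℤ) + 1) * t.edg) := by ring
        have h12 : (2 * a * t.size : ℤ) = 2 * (a * t.size) := by ring
        rw [h11, h12] at h10
        omega
      set δ : ℤ := (a : ℤ) * t.size - (b + 1) * t.edg with hδ
      have h9 : δ * D < t.size := by
        have : ((2 * a * t.size : ℤ) - ((b : ℤ) + 1) * (2 * t.edg : ℕ)) * D = 2 * (δ * D) := by
          rw [hδ]
          push_cast
          ring
        rw [this] at h7
        omega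
      have h10 : (k : ℤ) * (δ + a * ((w + 1 : ℕ) : ℤ) + 1) ≤ δ * D := by
        have h11 : δ + a * ((w + 1 : ℕ) : ℤ) + 1 ≤ δ * (a * ((w + 1 : ℕ) : ℤ) + 2) := by
          have h12 : (0 : ℤ) ≤ a * ((w + 1 : ℕ) : ℤ) := by positivity
          nlinarith
        have h13 : (D : ℤ) = 2 * (k + 1) * (a * ((w + 1 : ℕ) : ℤ) + 2) := by
          rw [hD]
          push_cast
          ring
        rw [h13]
        have h14 : (0 : ℤ) ≤ δ * (a * ((w + 1 : ℕ) : ℤ) + 2) := by positivity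
        have h15 : (0 : ℤ) ≤ k := by positivity
        calc (k : ℤ) * (δ + a * ((w + 1 : ℕ) : ℤ) + 1) ≤ k * (δ * (a * ((w + 1 : ℕ) : ℤ) + 2)) :=
              mul_le_mul_of_nonneg_left h11 h15
          _ ≤ (2 * (k + 1)) * (δ * (a * ((w + 1 : ℕ) : ℤ) + 2)) := by
              apply mul_le_mul_of_nonneg_right _ h14
              linarith
          _ = _ := by ring
      exact lt_of_le_of_lt h10 h9
    obtain ⟨c, t, h1, h2, h3, h4⟩ := hTM
    exact stmt_CX a b (w + 1) c t h1 h2 h3 h4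

end Pool.Agent.Work.MP_216d61_lc
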