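import Pool.Agent.Work.MP_216d61_lc_helper79.Interface3
import Pool.Agent.Work.MP_216d61_lc_helper79.EX
import Pool.Agent.Work.MP_216d61_lc_helper79.CO
import Pool.Agent.Work.MP_216d61_lc_helper52.SD
import Pool.Agent.Work.MP_216d61_lc_helper52.CH

/-!
# Densities of classes of bounded treewidth: assembly
-/

set_option autoImplicit false

namespace Pool.Agent.Work.MP_216d61_lc

open Set Relation SD

theorem sd_large (a b r m : ℕ) (c : Chn (Fin r) (Fin m)) (hex : Exact a b c)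
    (hMR : ∀ n, MR ((a : ℝ) / ((b : ℝ) + 1)) (c.G n)) : ∃ w : ℕ, ∀ ε : ℝ, 0 < ε → ∀ n0 : ℕ,
    ∃ m : ℕ, n0 ≤ m ∧ ∃ G : SimpleGraph (Fin m), TWle w G ∧ MR ((a : ℝ) / ((b : ℝ) + 1)) G ∧
    2 * ((a : ℝ) / ((b : ℝ) + 1) - ε) * m < e2 G := by
  classical
  obtain ⟨hm, hce⟩ := hex
  set ρ : ℝ := (a : ℝ) / ((b : ℝ) + 1) with hρ
  have hb : (0 : ℝ) < (b : ℝ) + 1 := by positivity
  have hρ0 : 0 ≤ ρ := by positivity
  have hceR : (c.ce : ℝ) = 2 * ρ * m := by
    have h1 : ((b : ℝ) + 1) * c.ce = 2 * a * m := by exact_mod_cast hce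
    rw [hρ]
    field_simp
    linarith
  refine ⟨r + 2 * m, fun ε hε n0 => ?_⟩
  set e1 := (@Finset.filter (Fin m × Fin m) (fun p => c.E1 p.1 p.2) (Classical.decPred _) Finset.univ).card
    with he1
  obtain ⟨n, hn, hnn⟩ : ∃ n : ℕ, (ρ * r + e1) / ε < n ∧ n0 ≤ n := by
    obtain ⟨n, hn⟩ := exists_nat_gt ((ρ * r + e1) / ε)
    refine ⟨max n n0, lt_of_lt_of_le hn ?_, le_max_right _ _⟩
    exact_mod_cast le_max_left _ _
  have hn' : ρ * r + e1 < ε * n := by
    rw [div_lt_iff₀ hε] at hn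
    linarith
  have hn0 : 0 < n := by
    rcases Nat.eq_zero_or_pos n with h | h
    · rw [h] at hn'
      simp only [Nat.cast_zero, mul_zero] at hn'
      have : 0 ≤ ρ * r + (e1 : ℝ) := by positivity
      linarith
    · exact h
  set Φ : Fin r ⊕ Fin n × Fin m ≃ Fin (r + n * m) :=
    (Equiv.sumCongr (Equiv.refl _) finProdFinEquiv).trans finSumFinEquiv with hΦ
  have hΦl : ∀ x : Fin r, (Φ (.inl x) : ℕ) = x := fun x => by simp [hΦ]
  have hΦr : ∀ p : Fin n × Fin m, (Φ (.inr p) : ℕ) = r + (p.2 + m * p.1) := fun p => by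
    simp [hΦ, finProdFinEquiv]
  set G' : SimpleGraph (Fin (r + n * m)) := (c.G n).comap Φ.symm with hG'
  refine ⟨r + n * m, ?_, G', ?_, ?_, ?_⟩
  · have : n ≤ n * m := Nat.le_mul_of_pos_right n hm
    omega
  · refine ⟨Equiv.refl _, fun v => Finset.univ.filter fun u => u < v ∧
      ((u : ℕ) < r ∨ ((v : ℕ) - r) / m ≤ ((u : ℕ) - r) / m + 1), ?_, ?_, ?_, ?_⟩
    · intro v u hu
      exact (Finset.mem_filter.mp hu).2.1
    · intro v
      have h1 : (Finset.univ.filter fun u : Fin (r + n * m) => u < v ∧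
          ((u : ℕ) < r ∨ ((v : ℕ) - r) / m ≤ ((u : ℕ) - r) / m + 1)).card ≤
          (Finset.range r ∪ Finset.Ico (r + m * ((v - r) / m - 1)) (r + m * ((v - r) / m - 1) + 2 * m)).card := by
        refine Finset.card_le_card_of_injOn (fun u => (u : ℕ)) ?_ (fun u _ u' _ h => Fin.ext h)
        intro u hu
        rw [Finset.mem_coe, Finset.mem_filter] at hu
        rw [Finset.mem_coe, Finset.mem_union, Finset.mem_range, Finset.mem_Ico]
        obtain ⟨-, h1, h2⟩ := hu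
        by_cases hur : (u : ℕ) < r
        · exact Or.inl hur
        · right
          have h3 := h2.resolve_left hur
          have h1' : (u : ℕ) < v := h1
          have h4 : ((u : ℕ) - r) / m ≤ ((v : ℕ) - r) / m := Nat.div_le_div_right (by omega)
          have h5 := Nat.div_add_mod ((u : ℕ) - r) m
          have h6 := Nat.mod_lt ((u : ℕ) - r) hm
          change r + m * (((v : ℕ) - r) / m - 1) ≤ (u : ℕ) ∧
            (u : ℕ) < r + m * (((v : ℕ) - r) / m - 1) + 2 * m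
          generalize ((v : ℕ) - r) / m = i at h3 h4 ⊢
          generalize ((u : ℕ) - r) / m = d at h3 h4 h5
          have h7 : i - 1 ≤ d := by omega
          have h8 : m * (i - 1) ≤ m * d := Nat.mul_le_mul_left m h7
          have h9 : d ≤ (i - 1) + 1 := by omega
          have h10 : m * d ≤ m * (i - 1) + m := by
            have := Nat.mul_le_mul_left m h9
            rwa [Nat.mul_add, mul_one] at this
          constructor <;> omega
      refine h1.trans ((Finset.card_union_le _ _).trans ?_)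
      rw [Finset.card_range, Nat.card_Ico]
      omega
    · intro v u hu u' hu' huu
      rw [Finset.mem_filter] at hu hu' ⊢
      refine ⟨Finset.mem_univ _, huu, ?_⟩
      rcases hu'.2.2 with h | h
      · exact Or.inl h
      · right
        have h1 : (u : ℕ) < v := hu.2.1
        exact (Nat.div_le_div_right (by omega)).trans h
    · intro u v huv hadj
      rw [Finset.mem_filter]
      refine ⟨Finset.mem_univ _, huv, ?_⟩
      have huv' : (u : ℕ) < v := huv
      have h1 : (c.G n).Adj (Φ.symm u) (Φ.symm v) := hadj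
      obtain ⟨x, rfl⟩ : ∃ x, Φ x = u := ⟨Φ.symm u, by simp⟩
      obtain ⟨y, rfl⟩ : ∃ y, Φ y = v := ⟨Φ.symm v, by simp⟩
      rw [Equiv.symm_apply_apply, Equiv.symm_apply_apply] at h1
      rcases x with x | p
      · left; rw [hΦl]; exact x.2
      · rcases y with y | q
        · rw [hΦl, hΦr] at huv'
          have := y.2
          omega
        · right
          rw [hΦr, hΦr]
          have h2 : ∀ p : Fin n × Fin m, (r + ((p.2 : ℕ) + m * p.1) - r) / m = p.1 := by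
            intro p
            rw [Nat.add_sub_cancel_left, Nat.add_mul_div_left _ _ hm, Nat.div_eq_of_lt p.2.2, zero_add]
          rw [h2, h2]
          rcases h1 with ⟨h3, -⟩ | ⟨h3, -⟩ | ⟨h3, -⟩
          · rw [h3]; omega
          · omega
          · omega
  · exact (hMR n).minor (minor_of_inj Φ.symm Φ.symm.injective fun i j h => h)
  · have h1 : e2 G' = e2 (c.G n) := e2_congr (H := G') (G := c.G n) Φ.symm fun i j => Iff.rfl
    have h2 := e2_chain c n
    rw [← he1] at h2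
    have h3 : (n : ℝ) * c.ce ≤ e2 (c.G n) + 2 * e1 := by exact_mod_cast h2
    rw [hceR] at h3
    rw [h1]
    push_cast
    have h4 : (0 : ℝ) ≤ ε * r := by positivity
    have h5 : (1 : ℝ) ≤ m := by exact_mod_cast hm
    have h6 : ε * n ≤ ε * (n * m) := by
      have : (n : ℝ) ≤ n * m := le_mul_of_one_le_right (by positivity) h5
      exact mul_le_mul_of_nonneg_left this hε.le
    nlinarith


theorem dense_mem {F : Cls} (hF : MinorClosed F) {ρ : ℝ} (hpos : 0 < ρ)
    (hinf : ρ = sInf (SS F)) : ∀ ε : ℝ, 0 < ε → ∃ m : ℕ, 1 ≤ m ∧ ∃ G ∈ F m, MR ρ G ∧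
      2 * (ρ - ε) * m < e2 G := by
  classical
  have hne : (SS F).Nonempty := by
    rw [nonempty_iff_ne_empty]
    intro he
    rw [he, Real.sInf_empty] at hinf
    linarith
  obtain ⟨c1, hc1⟩ := hne
  have hne : (SS F).Nonempty := ⟨c1, hc1⟩
  obtain ⟨hc10, n0, hn0⟩ := mem_SS.1 hc1
  -- the bound for all members
  have hB : ∀ n, ∀ G ∈ F n, (e2 G : ℝ) ≤ (2 * c1 + n0) * n := by
    intro n G hG
    have hn : (0 : ℝ) ≤ n := Nat.cast_nonneg _
    have hn0' : (0 : ℝ) ≤ n0 := Nat.cast_nonneg _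
    rcases le_or_gt n0 n with hle | hlt
    · have := hn0 n hle G hG
      nlinarith
    · have h1 : e2 G ≤ n * n := by simpa using e2_le_sq G
      have h2 : (e2 G : ℝ) ≤ n * n := by exact_mod_cast h1
      have h3 : (n : ℝ) ≤ n0 := by exact_mod_cast hlt.le
      nlinarith
  -- a complete graph outside of the class
  obtain ⟨t, ht1, htF⟩ : ∃ t : ℕ, 1 ≤ t ∧ (⊤ : SimpleGraph (Fin t)) ∉ F t := by
    obtain ⟨t0, ht0⟩ := exists_nat_gt (2 * c1 + 1)
    refine ⟨max t0 n0 + 1, by omega, fun hmem => ?_⟩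
    have h1 := hn0 _ (by omega) _ hmem
    have h2 := e2_top (max t0 n0 + 1)
    set t := max t0 n0 + 1 with ht
    have h2' : (e2 (⊤ : SimpleGraph (Fin t)) : ℝ) + t = t * t := by exact_mod_cast h2
    have h3 : (t0 : ℝ) ≤ t := by
      have : t0 ≤ t := by omega
      exact_mod_cast this
    have h4 : (1 : ℝ) ≤ t := by
      have : 1 ≤ t := by omega
      exact_mod_cast this
    nlinarith
  have hK : ∀ n, ∀ G ∈ F n, KFree t G.Adj := by
    intro n G hG C hC1 hC2 hC3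
    refine htF (hF _ _ _ _ hG (Model.minor (f := fun i => (C i : Set (Fin n))) ⟨?_, ?_, ?_⟩))
    · intro i j hij
      have := hC2 i j hij
      exact_mod_cast this
    · intro i
      exact ⟨(hC1 i).1, fun x hx y hy => (hC1 i).2 x hx y hy⟩
    · intro i j hij
      exact hC3 i j hij
  intro ε' hε'
  set ε : ℝ := min (ε' / 3) (ρ / 2) with hεdef
  have hε : 0 < ε := lt_min (by linarith) (by linarith)
  have hε1 : ε ≤ ε' / 3 := min_le_left _ _
  have hε2 : ε ≤ ρ / 2 := min_le_right _ _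
  have hfreq : ∀ n0 : ℕ, ∃ n ≥ n0, ∃ G ∈ F n, 2 * (ρ - ε) * n < e2 G := by
    by_contra hcon
    push Not at hcon
    obtain ⟨n1, hn1⟩ := hcon
    have h1 : ρ - ε ∈ SS F := mem_SS.2 ⟨by linarith, n1, hn1⟩
    have h2 := csInf_le (SS_bddBelow F) h1
    rw [← hinf] at h2
    linarith
  obtain ⟨r0, c0, H0, A0, hg0, ht0⟩ := exists_good hF (B := 2 * c1 + n0) (by positivity) hB ht1 hK
    hε (by linarith) hfreq
  have hc0 : 1 ≤ Fintype.card (Fin c0) := by
    rw [Fintype.card_fin]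
    rcases Nat.eq_zero_or_pos c0 with h | h
    · have h1 := tau2_le H0 A0
      subst h
      simp at h1
      rw [h1] at ht0
      simp at ht0
    · exact h
  obtain ⟨θ, hθ0, hθt, hBd, s, hs⟩ := exists_max_type hg0 hc0
  rw [Fintype.card_fin] at hc0
  obtain ⟨R, C, i1, i2, H, A, hg, hR, h1, hC, hT, hconn, hroot⟩ := min_type hBd hs
  have hc0' : (0 : ℝ) < c0 := by exact_mod_cast hc0
  have hθ1 : ρ - 2 * ε < θ := by
    rw [Fintype.card_fin] at hθt
    have h2 := lt_of_lt_of_le ht0 hθt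
    have h3 : 2 * (ρ - 2 * ε) < 2 * θ := lt_of_mul_lt_mul_right h2 hc0'.le
    linarith
  have hCpos : (0 : ℝ) < Fintype.card C := by exact_mod_cast h1
  have hθ2 : θ ≤ ρ := by
    have h2 := good_le hF hinf hne hg
    have h3 := hT.trans h2
    have h4 : 2 * θ ≤ 2 * ρ := le_of_mul_le_mul_right h3 hCpos
    linarith
  have hRθ : (Fintype.card R : ℝ) ≤ θ := by
    have h2 := hBd R (Fin 1) _ _ (hg.contract hconn hroot) hR (by
      simp only [Fintype.card_fin]; omega)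
    have h3 : tau2 (⊥ : SimpleGraph (Fin 1)) (fun (_ : R) (_ : Fin 1) => True) =
        2 * Fintype.card R := by
      rw [tau2]
      have h4 : e2 (⊥ : SimpleGraph (Fin 1)) = 0 := e2_eq_zero fun _ _ h => h
      rw [h4]
      simp
    rw [h3] at h2
    push_cast at h2
    simp at h2
    exact h2
  have hMR := fun κ => MR.mono hθ2 (fan_MR hBd hg hR hC (by linarith) κ)
  obtain ⟨κ, hκ⟩ := exists_nat_gt (ρ * Fintype.card R / ε)
  have hκ0 : (0 : ℝ) < κ := lt_of_le_of_lt (by positivity) hκ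
  have hκ1 : 1 ≤ κ := by
    have : 0 < κ := by exact_mod_cast hκ0
    omega
  set e := Fintype.equivFinOfCardEq (card_fan R C κ) with he
  refine ⟨Fintype.card R + κ * Fintype.card C, ?_, (Fan H A (Fin κ)).comap e.symm,
    (inF_fin hF).1 ((hg κ).minor (minor_of_inj e.symm e.symm.injective fun _ _ h => h)),
    (hMR κ).minor (minor_of_inj e.symm e.symm.injective fun _ _ h => h), ?_⟩
  · have := Nat.mul_le_mul hκ1 h1
    omega
  · rw [e2_congr (H := (Fan H A (Fin κ)).comap e.symm) (G := Fan H A (Fin κ)) e.symm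
      fun _ _ => Iff.rfl, e2_fan, Fintype.card_fin]
    push_cast
    have h2 : (κ : ℝ) * (2 * θ * Fintype.card C) ≤ κ * tau2 H A :=
      mul_le_mul_of_nonneg_left hT hκ0.le
    rw [div_lt_iff₀ hε] at hκ
    have h3 : (1 : ℝ) ≤ Fintype.card C := by exact_mod_cast h1
    have h4 : 0 < κ * (Fintype.card C : ℝ) := by positivity
    have h5 : (ρ - ε' + ε) * (κ * (Fintype.card C : ℝ)) < θ * (κ * (Fintype.card C : ℝ)) :=
      mul_lt_mul_of_pos_right (by linarith) h4
    have h6 : (κ : ℝ) * ε ≤ ε * (κ * Fintype.card C) := by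
      have := mul_le_mul_of_nonneg_left h3 (mul_nonneg hε.le hκ0.le)
      linarith
    have h7 : (ρ - ε') * Fintype.card R ≤ ρ * Fintype.card R :=
      mul_le_mul_of_nonneg_right (by linarith) (Nat.cast_nonneg _)
    nlinarith


/-- `x` is the limiting density of a minor-closed class of bounded treewidth -/
def IsBW (x : ℝ) : Prop :=
  ∃ (w : ℕ) (F : Cls), MinorClosed F ∧ (∀ n, ∀ G ∈ F n, TWle w G) ∧ x = sInf (SS F)

theorem isBW_of_BT (hTWM : Stmt_TWM) {a b : ℕ} (h : BT ((a : ℝ) / ((b : ℝ) + 1))) :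
    IsBW ((a : ℝ) / ((b : ℝ) + 1)) := by
  set ρ : ℝ := (a : ℝ) / ((b : ℝ) + 1) with hρd
  have hρ : 0 ≤ ρ := by positivity
  obtain ⟨r, m, c, hex, hMR⟩ := stmt_EX a b h
  obtain ⟨w, hw⟩ := sd_large a b r m c hex hMR
  refine ⟨w, fun n => {G | TWle w G ∧ MR ρ G}, ?_, fun n G hG => hG.1, ?_⟩
  · intro m k H G hG hm
    exact ⟨hTWM w k m G H hG.1 hm, hG.2.minor hm⟩
  · have hmem : ρ ∈ SS (fun n => {G : SimpleGraph (Fin n) | TWle w G ∧ MR ρ G}) := by
      rw [mem_SS]
      refine ⟨hρ, 0, fun n _ G hG => ?_⟩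
      have := MR.self hG.2
      rwa [Nat.card_eq_fintype_card, Fintype.card_fin] at this
    refine le_antisymm (le_csInf ⟨ρ, hmem⟩ ?_) (csInf_le (SS_bddBelow _) hmem)
    intro x hx
    by_contra hlt
    push Not at hlt
    rw [mem_SS] at hx
    obtain ⟨_, n0, hn0⟩ := hx
    obtain ⟨m', hm', G, hT, hG, hGe⟩ := hw (ρ - x) (by linarith) n0
    have h1 := hn0 m' hm' G ⟨hT, hG⟩
    have h2 : 2 * (ρ - (ρ - x)) * (m' : ℝ) = 2 * x * m' := by ring
    linarith

theorem BT_of_isBW {x : ℝ} (hx : 0 ≤ x) (h : IsBW x) : BT x := by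
  obtain ⟨w, F, hF, hw, hinf⟩ := h
  rcases hx.eq_or_lt with h0 | hpos
  · refine ⟨w, fun ε hε => ⟨1, le_rfl, ⊥, ?_, ?_, ?_⟩⟩
    · exact ⟨Equiv.refl _, fun _ => ∅, by simp, by simp, by simp, fun u v huv h => h.elim⟩
    · rw [← h0]
      exact MR_bot le_rfl 1
    · have h1 : (0 : ℝ) ≤ e2 (⊥ : SimpleGraph (Fin 1)) := Nat.cast_nonneg _
      rw [← h0]
      push_cast
      linarith
  · refine ⟨w, fun ε hε => ?_⟩
    obtain ⟨m, hm, G, hG, hMR, he⟩ := dense_mem hF hpos hinf ε hε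
    exact ⟨m, hm, G, hw m G hG, hMR, he⟩

theorem BT_iff (hTWM : Stmt_TWM) (a b : ℕ) : BT ((a : ℝ) / ((b : ℝ) + 1)) ↔
    IsBW ((a : ℝ) / ((b : ℝ) + 1)) :=
  ⟨isBW_of_BT hTWM, BT_of_isBW (by positivity)⟩

theorem rePred_BT : REPred fun p : ℕ × ℕ => BT ((p.1 : ℝ) / ((p.2 : ℝ) + 1)) := by
  have h : (fun p : ℕ × ℕ => BT ((p.1 : ℝ) / ((p.2 : ℝ) + 1))) =
      fun p : ℕ × ℕ => ∃ (r m : ℕ) (c : Chn (Fin r) (Fin m)), Exact p.1 p.2 c ∧
        MR ((p.1 : ℝ) / ((p.2 : ℝ) + 1)) (c.G (NB (r + m) p.1 + 2)) := by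
    funext p
    apply propext
    constructor
    · intro h
      obtain ⟨r, m, c, hex, hMR⟩ := stmt_EX p.1 p.2 h
      exact ⟨r, m, c, hex, hMR _⟩
    · rintro ⟨r, m, c, hex, hMR⟩
      exact stmt_SD p.1 p.2 r m c hex (stmt_CH stmt_FI p.1 p.2 r m c hMR)
  rw [h]
  exact stmt_CO

theorem dense_of_BT {ρ : ℝ} (h : BT ρ) : Dense ρ := by
  obtain ⟨w, hw⟩ := h
  intro ε hε
  obtain ⟨m, hm, G, _, hMR, he⟩ := hw ε hε
  exact ⟨m, hm, G, hMR, he⟩

theorem isDen_of_BT {ρ : ℝ} (hρ : 0 ≤ ρ) (h : BT ρ) : IsDen ρ := isDen_of_dense hρ (dense_of_BT h)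

theorem computable_of_BT (h : ∀ a b : ℕ, IsDen ((a : ℝ) / ((b : ℝ) + 1)) →
    BT ((a : ℝ) / ((b : ℝ) + 1))) :
    ComputablePred fun p : ℕ × ℕ => IsDen ((p.1 : ℝ) / ((p.2 : ℝ) + 1)) := by
  rw [ComputablePred.computable_iff_re_compl_re']
  refine ⟨?_, rePred_not_isDen⟩
  have h1 : (fun p : ℕ × ℕ => IsDen ((p.1 : ℝ) / ((p.2 : ℝ) + 1))) =
      fun p : ℕ × ℕ => BT ((p.1 : ℝ) / ((p.2 : ℝ) + 1)) := by
    funext p
    exact propext ⟨h p.1 p.2, isDen_of_BT (by positivity)⟩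
  rw [h1]
  exact rePred_BT

end Pool.Agent.Work.MP_216d61_lc
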