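import Pool.Agent.Work.MP_216d61_lc_helper79.FI1

/-!
# Block FI: finite index
-/

set_option autoImplicit false

namespace Pool.Agent.Work.MP_216d61_lc

open Function Relation

theorem MR_nat {a b : ℕ} {V : Type} {G : SimpleGraph V} : MR ((a : ℝ) / ((b : ℝ) + 1)) G ↔
    ∀ (W : Type) [Fintype W] (K : SimpleGraph W), Minor K G →
      (b + 1) * e2 K ≤ 2 * a * Fintype.card W := by
  have key : ∀ (W : Type) [Fintype W] (K : SimpleGraph W),
      ((e2 K : ℝ) ≤ 2 * ((a : ℝ) / ((b : ℝ) + 1)) * Nat.card W ↔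
        (b + 1) * e2 K ≤ 2 * a * Fintype.card W) := by
    intro W _ K
    rw [Nat.card_eq_fintype_card]
    have hb : (0 : ℝ) < (b : ℝ) + 1 := by positivity
    have h1 : 2 * ((a : ℝ) / ((b : ℝ) + 1)) * (Fintype.card W : ℝ) =
        (2 * a * Fintype.card W) / ((b : ℝ) + 1) := by ring
    rw [h1, le_div_iff₀ hb]
    constructor
    · intro h
      have h2 : (e2 K : ℝ) * (b + 1) ≤ 2 * a * Fintype.card W := h
      have h3 : e2 K * (b + 1) ≤ 2 * a * Fintype.card W := by exact_mod_cast h2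
      rw [mul_comm]
      exact h3
    · intro h
      rw [mul_comm] at h
      exact_mod_cast h
  constructor
  · intro h W _ K hK
    exact (key W K).1 (h W K hK)
  · intro h W _ K hK
    exact (key W K).2 (h W K hK)

/-- the data `(β, π, α, k)` is realisable -/
def Real' (a b : ℕ) {R C : Type} [Fintype R] (H : SimpleGraph C) (A : R → C → Prop)
    (β : R → Option R) (π α : R → R → Prop) (k : ℕ) : Prop :=
  ∃ (Wi : Type) (_ : Fintype Wi) (Ki : SimpleGraph Wi) (h : R → Set C) (g : Wi → Set C)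
    (T : R → Wi → Prop), Inner H A β π α Ki h g T ∧
    k + 2 * a * Fintype.card Wi ≤ (b + 1) * tau2 Ki T

section tr

variable {a b : ℕ} {R C V Wz : Type} [Fintype R] {H : SimpleGraph C} {A : R → C → Prop}
  {β : R → Option R} {π α : R → R → Prop} {Z : SimpleGraph V} {l : R → V} {Kz : SimpleGraph Wz}
  {F : Wz → Set V} {ω : JJ β → Wz}

theorem outer_bound [Fintype Wz] (ho : Outer Z l β π α Kz F ω) {k : ℕ}
    (hr : Real' a b H A β π α k) (hM : MR ((a : ℝ) / ((b : ℝ) + 1)) (Glue Z l H A)) :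
    (b + 1) * e2 Kz + k ≤ 2 * a * Fintype.card Wz := by
  classical
  obtain ⟨Wi, _, Ki, h, g, T, hi, hk⟩ := hr
  have h1 := MR_nat.1 hM _ _ (rec_minor ho hi)
  rw [e2_glue _ _ ho.inj, Fintype.card_sum] at h1
  have h2 : tau2 Ki T ≤ tau2 Ki (fun (j : JJ β) i => T j.1 i) := by
    have h3 : ∀ j i, T j i → ∃ a, β a = some j := by
      intro j i hT
      obtain ⟨x, hx, c, _, _⟩ := hi.tadj j i hT
      rcases x with a | c'
      · exact ⟨a, hx⟩
      · obtain ⟨a, ha, _⟩ := hi.link j c' hx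
        exact ⟨a, ha⟩
    rw [tau2, tau2]
    refine Nat.add_le_add_left (Nat.mul_le_mul_left _ ?_) _
    refine Finset.card_le_card_of_surjOn (fun p : JJ β × Wi => (p.1.1, p.2)) ?_
    rintro ⟨j, i⟩ hji
    simp only [Finset.coe_filter, Finset.mem_univ, true_and, Set.mem_ofPred_eq] at hji
    exact ⟨(⟨j, h3 j i hji⟩, i), by simpa using hji, rfl⟩
  have h4 := Nat.mul_le_mul_left (b + 1) h2
  nlinarith

/-- No internal branch sets. -/
theorem Inner.empty {Wi : Type} {Ki : SimpleGraph Wi} {h : R → Set C} {g : Wi → Set C}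
    {T : R → Wi → Prop} (hi : Inner H A β π α Ki h g T) : Real' a b H A β π α 0 := by
  refine ⟨Empty, inferInstance, ⊥, h, fun i => i.elim, fun _ i => i.elim,
    ⟨hi.hh, fun i => i.elim, fun _ i => i.elim, fun i => i.elim, fun i => i.elim,
      fun _ i => i.elim, hi.link, hi.pi, hi.al⟩, ?_⟩
  simp

/-- Splitting the boundary branch sets into their components. -/
theorem Inner.split {Wi : Type} [Fintype Wi] {Ki : SimpleGraph Wi} {h : R → Set C}
    {g : Wi → Set C} {T : R → Wi → Prop} (hi : Inner H A β π α Ki h g T) :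
    ∃ (rep : R → R) (h0 : R → Set C) (T0 : R → Wi → Prop),
      Inner H A (fun a => some (rep a)) (fun a a' => rep a = rep a') (fun _ _ => False) Ki h0 g T0 ∧
      tau2 Ki T ≤ tau2 Ki T0 := by
  classical
  let r : R → R → Prop := fun a a' => a = a' ∨ ∃ j, β a = some j ∧ β a' = some j ∧
    Lk (BG H A) (SJ β h j) (.inl a) (.inl a')
  have hr : Equivalence r := by
    refine ⟨fun a => Or.inl rfl, ?_, ?_⟩
    · rintro a a' (h1 | ⟨j, h1, h2, h3⟩)
      · exact Or.inl h1.symm
      · exact Or.inr ⟨j, h2, h1, h3.symm⟩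
    · rintro a a' a'' (h1 | ⟨j, h1, h2, h3⟩) (h1' | ⟨j', h1', h2', h3'⟩)
      · exact Or.inl (h1.trans h1')
      · subst h1
        exact Or.inr ⟨j', h1', h2', h3'⟩
      · subst h1'
        exact Or.inr ⟨j, h1, h2, h3⟩
      · rw [h2] at h1'
        have hjj : j = j' := Option.some_injective _ h1'
        subst hjj
        exact Or.inr ⟨j, h1, h2', h3.trans h3'⟩
  let S : Setoid R := ⟨r, hr⟩
  let rep : R → R := fun a => (Quotient.mk S a).out
  have hrep : ∀ a a', rep a = rep a' ↔ r a a' := by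
    intro a a'
    constructor
    · intro heq
      have h1 : Quotient.mk S a = Quotient.mk S a' := by
        rw [← Quotient.out_eq (Quotient.mk S a), ← Quotient.out_eq (Quotient.mk S a')]
        exact congrArg _ heq
      exact Quotient.exact h1
    · intro heq
      have h1 : Quotient.mk S a = Quotient.mk S a' := Quotient.sound heq
      exact congrArg Quotient.out h1
  let h0 : R → Set C := fun j0 => {c | ∃ a j, rep a = j0 ∧ β a = some j ∧ c ∈ h j ∧
    Lk (BG H A) (SJ β h j) (.inl a) (.inr c)}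
  let β0 : R → Option R := fun a => some (rep a)
  have hpath : ∀ a j (x : R ⊕ C), β a = some j → Lk (BG H A) (SJ β h j) (.inl a) x →
      x ∈ SJ β0 h0 (rep a) ∧ Lk (BG H A) (SJ β0 h0 (rep a)) (.inl a) x := by
    intro a j x ha hx
    have h1 : (.inl a : R ⊕ C) ∈ SJ β0 h0 (rep a) := rfl
    induction hx with
    | refl => exact ⟨h1, ReflTransGen.refl⟩
    | @tail y z hy hst ih =>
      have h2 : z ∈ SJ β0 h0 (rep a) := by
        have h3 : Lk (BG H A) (SJ β h j) (.inl a) z := hy.tail hst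
        rcases z with a' | c
        · show some (rep a') = some (rep a)
          rw [Option.some_inj, hrep]
          exact Or.inr ⟨j, hst.2.2, ha, h3.symm⟩
        · exact ⟨a, j, rfl, ha, hst.2.2, h3⟩
      exact ⟨h2, ih.2.tail ⟨hst.1, ih.1, h2⟩⟩
  have hsub : ∀ j0 c, c ∈ h0 j0 → ∃ j, c ∈ h j := by
    rintro j0 c ⟨a, j, -, -, h1, -⟩
    exact ⟨j, h1⟩
  refine ⟨rep, h0, fun j0 i => ∃ x ∈ SJ β0 h0 j0, ∃ c ∈ g i, (BG H A).Adj x (.inr c), ?_, ?_⟩
  · refine ⟨?_, hi.gg, ?_, hi.conn, hi.adj, fun j i h => h, ?_, ?_, fun _ _ h => h.elim⟩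
    · intro j0 j0' hne
      rw [Set.disjoint_left]
      rintro c ⟨a, j, rfl, h1, h2, h3⟩ ⟨a', j', rfl, h1', h2', h3'⟩
      have hjj : j = j' := by
        by_contra hcon
        exact Set.disjoint_left.1 (hi.hh _ _ hcon) h2 h2'
      subst hjj
      exact hne ((hrep a a').2 (Or.inr ⟨j, h1, h1', h3.trans h3'.symm⟩))
    · intro j0 i
      rw [Set.disjoint_left]
      intro c hc hc'
      obtain ⟨j, hj⟩ := hsub j0 c hc
      exact Set.disjoint_left.1 (hi.hg j i) hj hc'
    · rintro j0 c ⟨a, j, rfl, h1, h2, h3⟩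
      exact ⟨a, rfl, (hpath a j _ h1 h3).2⟩
    · intro a a' haa
      refine ⟨rep a, rfl, congrArg some haa.symm, ?_⟩
      rcases (hrep a a').1 haa with h1 | ⟨j, h1, h2, h3⟩
      · subst h1
        exact ReflTransGen.refl
      · exact (hpath a j _ h1 h3).2
  · have h1 : ∀ p : R × Wi, T p.1 p.2 → ∃ a, β a = some p.1 ∧
        ∃ x ∈ SJ β0 h0 (rep a), ∃ c ∈ g p.2, (BG H A).Adj x (.inr c) := by
      rintro ⟨j, i⟩ hT
      obtain ⟨x, hx, c, hc, hxc⟩ := hi.tadj j i hT
      rcases x with a | c'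
      · exact ⟨a, hx, .inl a, rfl, c, hc, hxc⟩
      · obtain ⟨a, ha, hlk⟩ := hi.link j c' hx
        exact ⟨a, ha, .inr c', (hpath a j _ ha hlk).1, c, hc, hxc⟩
    rw [tau2, tau2]
    refine Nat.add_le_add_left (Nat.mul_le_mul_left _ ?_) _
    have h2 : ∀ p : {p : R × Wi // T p.1 p.2}, ∃ a, β a = some p.1.1 ∧
        ∃ x ∈ SJ β0 h0 (rep a), ∃ c ∈ g p.1.2, (BG H A).Adj x (.inr c) := fun p => h1 p.1 p.2
    choose φ hφ hφ' using h2
    rw [← Fintype.card_subtype, ← Fintype.card_subtype]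
    refine Fintype.card_le_of_injective (fun p => ⟨(rep (φ p), p.1.2), hφ' p⟩) ?_
    intro p q hpq
    have h3 : (rep (φ p), p.1.2) = (rep (φ q), q.1.2) := congrArg Subtype.val hpq
    rw [Prod.mk.injEq] at h3
    refine Subtype.ext (Prod.ext ?_ h3.2)
    rcases (hrep _ _).1 h3.1 with h4 | ⟨j, h4, h5, _⟩
    · have h5 := hφ p
      rw [h4, hφ q] at h5
      exact (Option.some_injective _ h5).symm
    · rw [hφ p] at h4
      rw [hφ q] at h5
      rw [Option.some_injective _ h4, Option.some_injective _ h5]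

omit [Fintype R] in
/-- The outer part which belongs to a split inner part. -/
theorem outer_split (Z : SimpleGraph V) (hl : Injective l) (rep : R → R) :
    Outer Z l (fun a => some (rep a)) (fun a a' => rep a = rep a') (fun _ _ => False)
      (⊥ : SimpleGraph (JJ (fun a => some (rep a)))) (fun w => {v | ∃ a, rep a = w.1 ∧ v = l a})
      id := by
  refine ⟨?_, ?_, injective_id, ?_, ?_, fun _ _ h => h.elim⟩
  · intro w w' hne
    rw [Set.disjoint_left]
    rintro v ⟨a, h1, rfl⟩ ⟨a', h2, h3⟩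
    have h4 := hl h3
    subst h4
    exact hne (Subtype.ext (h1.symm.trans h2))
  · rintro ⟨j, a, ha⟩
    exact ⟨l a, a, Option.some_injective _ ha, rfl⟩
  · intro a j hj
    exact ⟨a, Option.some_injective _ hj, rfl⟩
  · rintro w v ⟨a, h1, rfl⟩ v' ⟨a', h2, rfl⟩
    exact ReflTransGen.single ⟨Or.inr ⟨a, a', rfl, rfl, h1.trans h2.symm⟩, ⟨a, h1, rfl⟩, a', h2, rfl⟩

end tr

theorem transfer {a b : ℕ} {R C C' : Type} [Fintype R] (H : SimpleGraph C) (A : R → C → Prop)
    (H' : SimpleGraph C') (A' : R → C' → Prop)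
    (hp : ∀ β π α k, k ≤ 2 * a * Fintype.card R + 2 → Real' a b H A β π α k →
      Real' a b H' A' β π α k)
    {V : Type} (Z : SimpleGraph V) (l : R → V) (hl : Injective l)
    (hM : MR ((a : ℝ) / ((b : ℝ) + 1)) (Glue Z l H' A')) :
    MR ((a : ℝ) / ((b : ℝ) + 1)) (Glue Z l H A) := by
  classical
  rw [MR_nat]
  intro W _ K hK
  by_contra hcon
  push Not at hcon
  obtain ⟨f, hm⟩ := minor_iff.1 hK
  obtain ⟨β, π, α, Wz, Wi, _, _, Kz, Ki, F, ω, h, g, T, ho, hi, hcard, hle⟩ := extraction hm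
  rw [hcard] at hcon
  have h1 := Nat.mul_le_mul_left (b + 1) hle
  rcases lt_or_ge ((b + 1) * tau2 Ki T) (2 * a * Fintype.card Wi) with h2 | h2
  · have h3 := outer_bound ho (hp β π α 0 (Nat.zero_le _) hi.empty) hM
    nlinarith
  · rcases le_or_gt ((b + 1) * tau2 Ki T) (2 * a * Fintype.card Wi + (2 * a * Fintype.card R + 2))
      with h3 | h3
    · obtain ⟨k, hk⟩ := Nat.exists_eq_add_of_le h2
      have h4 : Real' a b H A β π α k := ⟨Wi, inferInstance, Ki, h, g, T, hi, by omega⟩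
      have h5 := outer_bound ho (hp β π α k (by omega) h4) hM
      nlinarith
    · obtain ⟨rep, h0, T0, hi0, hT0⟩ := hi.split
      have h4 : Real' a b H A (fun a => some (rep a)) (fun a a' => rep a = rep a')
          (fun _ _ => False) (2 * a * Fintype.card R + 2) := by
        refine ⟨Wi, inferInstance, Ki, h0, g, T0, hi0, ?_⟩
        have := Nat.mul_le_mul_left (b + 1) hT0
        omega
      have h5 := outer_bound (outer_split Z hl rep) (hp _ _ _ _ le_rfl h4) hM
      rw [e2_bot, mul_zero, zero_add] at h5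
      have h6 : Fintype.card (JJ (fun a : R => some (rep a))) ≤ Fintype.card R :=
        Fintype.card_subtype_le _
      have h7 := Nat.mul_le_mul_left (2 * a) h6
      omega

theorem stmt_FI : Stmt_FI := by
  classical
  intro a b R _ C H A
  set s := Fintype.card R with hs
  let P : Type := (R → Option R) × (R → R → Prop) × (R → R → Prop) × Fin (2 * a * s + 3)
  let prof : ℕ → Set P := fun i => {p | Real' a b (H i) (A i) p.1 p.2.1 p.2.2.1 p.2.2.2}
  have hcard : Fintype.card (Set P) = NB s a := by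
    rw [Fintype.card_set]
    simp only [P, Fintype.card_prod, Fintype.card_fun, Fintype.card_option, Fintype.card_fin,
      Fintype.card_prop, NB, ← hs, ← pow_mul]
    congr 1
    ring
  obtain ⟨x, y, hxy, heq⟩ := Fintype.exists_ne_map_eq_of_card_lt
    (fun i : Fin (NB s a + 1) => prof i) (by rw [hcard, Fintype.card_fin]; omega)
  have key : ∀ i j : ℕ, prof i = prof j → ∀ β π α k, k ≤ 2 * a * s + 2 →
      Real' a b (H i) (A i) β π α k → Real' a b (H j) (A j) β π α k := by
    intro i j hij β π α k hk hr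
    have h1 : ((β, π, α, ⟨k, by omega⟩) : P) ∈ prof i := hr
    rw [hij] at h1
    exact h1
  have main : ∀ i j : ℕ, prof i = prof j →
      Eqv ((a : ℝ) / ((b : ℝ) + 1)) (H i) (A i) (H j) (A j) := by
    intro i j hij V Z l hl
    exact ⟨transfer _ _ _ _ (key j i hij.symm) Z l hl, transfer _ _ _ _ (key i j hij) Z l hl⟩
  rcases lt_or_gt_of_ne (fun h => hxy (Fin.ext h) : (x : ℕ) ≠ y) with h1 | h1
  · exact ⟨x, y, h1, Nat.lt_succ_iff.1 y.2, main _ _ heq⟩
  · exact ⟨y, x, h1, Nat.lt_succ_iff.1 x.2, main _ _ heq.symm⟩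

end Pool.Agent.Work.MP_216d61_lc
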