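import Pool.Agent.Work.MP_216d61_lc_helper79.TM0

set_option autoImplicit false

namespace Pool.Agent.Work.MP_216d61_lc

open Function

open Classical in
theorem cross_sum {R C V : Type*} [Fintype R] [Fintype V] [Fintype C] (l : R → V)
    (hl : Injective l) (A : R → C → Prop) :
    (∑ u : V, ∑ c : C, if (∃ a, l a = u ∧ A a c) then 1 else 0) =
      ∑ a : R, ∑ c : C, if A a c then 1 else 0 := by
  rw [Finset.sum_comm, Finset.sum_comm (s := (Finset.univ : Finset R))]
  refine Finset.sum_congr rfl fun c _ => ?_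
  rw [← Finset.card_filter, ← Finset.card_filter, ← Finset.card_image_of_injective _ hl]
  congr 1
  ext u
  simp only [Finset.mem_filter, Finset.mem_univ, true_and, Finset.mem_image]
  exact exists_congr fun a => and_comm

/-- number of edges of a gluing -/
theorem e2_glue {R C V : Type} [Fintype R] [Fintype C] [Fintype V] (Z : SimpleGraph V)
    (l : R → V) (hl : Injective l) (H : SimpleGraph C) (A : R → C → Prop) :
    e2 (Glue Z l H A) = e2 Z + tau2 H A := by
  classical
  have h1 := cross_sum l hl A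
  rw [tau2_eq_sum, e2_eq_sum, e2_eq_sum]
  simp only [Fintype.sum_sum_type]
  have e1 : ∀ (u v : V), (Glue Z l H A).Adj (.inl u) (.inl v) = Z.Adj u v := fun _ _ => rfl
  have e2 : ∀ (u : V) (c : C), (Glue Z l H A).Adj (.inl u) (.inr c) = ∃ a, l a = u ∧ A a c :=
    fun _ _ => rfl
  have e3 : ∀ (u : V) (c : C), (Glue Z l H A).Adj (.inr c) (.inl u) = ∃ a, l a = u ∧ A a c :=
    fun _ _ => rfl
  have e4 : ∀ (c d : C), (Glue Z l H A).Adj (.inr c) (.inr d) = H.Adj c d := fun _ _ => rfl
  simp only [e1, e2, e3, e4, Finset.sum_add_distrib]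
  rw [Finset.sum_comm (s := (Finset.univ : Finset C)) (t := (Finset.univ : Finset V)), h1]
  ring

theorem e2_bot {V : Type} [Fintype V] : e2 (⊥ : SimpleGraph V) = 0 := by
  classical
  rw [e2_eq_sum]
  simp

/-- The edge bound for `B t`. -/
theorem Tm.edg_le {s : ℕ} {a b : ℕ} (t : Tm s) (h : MR ((a : ℝ) / ((b : ℝ) + 1)) t.B) :
    (0 : ℤ) ≤ (a : ℤ) * t.size - (b + 1) * t.edg + a * s := by
  have h1 := h.self
  have h2 : e2 t.B = 2 * t.edg := by
    have := e2_glue (⊥ : SimpleGraph (Fin s)) id injective_id t.H t.A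
    rw [e2_bot, zero_add, tau2_term] at this
    exact this
  rw [h2, Nat.card_sum, Nat.card_eq_fintype_card, Fintype.card_fin, t.card_I] at h1
  push_cast at h1
  have hb : (0 : ℝ) < (b : ℝ) + 1 := by positivity
  have h3 : ((b : ℝ) + 1) * (2 * (t.edg : ℝ)) ≤ 2 * (a * (s + t.size)) := by
    calc ((b : ℝ) + 1) * (2 * (t.edg : ℝ)) ≤ ((b : ℝ) + 1) * (2 * (a / (b + 1)) * (s + t.size)) :=
        mul_le_mul_of_nonneg_left h1 hb.le
      _ = _ := by field_simp
  have h4 : ((b : ℤ) + 1) * (2 * (t.edg : ℤ)) ≤ 2 * (a * (s + t.size)) := by exact_mod_cast h3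
  linarith

end Pool.Agent.Work.MP_216d61_lc
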