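import Mathlib

/-!
# Limiting densities of minor-closed classes of bounded treewidth
-/

set_option autoImplicit false

namespace Pool.Agent.Work.MP_216d61_lc

/-- `G` has treewidth at most `w`: `G` is a subgraph of a graph `K` whose vertices can be enumerated
so that the neighbours of each vertex which come before it form a clique with at most `w`
elements. -/
def TreewidthLE (w : ℕ) {n : ℕ} (G : SimpleGraph (Fin n)) : Prop :=
  ∃ (K : SimpleGraph (Fin n)) (e : Fin n ≃ Fin n), G ≤ K ∧
    ∀ v, K.IsClique {u | K.Adj u v ∧ e u < e v} ∧ {u | K.Adj u v ∧ e u < e v}.ncard ≤ w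

/-- `x` is the limiting edge density of a minor-closed class `F` of finite graphs of bounded
treewidth: the infimum of the `c ≥ 0` such that, for all large `n`, all `n`-vertex members of `F`
have at most `c * n` edges. -/
def IsBoundedTreewidthDensity (x : ℝ) : Prop :=
  ∃ F : (n : ℕ) → Set (SimpleGraph (Fin n)),
    (∀ (m k : ℕ) (H : SimpleGraph (Fin m)) (G : SimpleGraph (Fin k)), G ∈ F k →
      (∃ f : Fin m → Set (Fin k),
        (∀ i j, i ≠ j → Disjoint (f i) (f j)) ∧
        (∀ i, (G.induce (f i)).Connected) ∧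
        (∀ i j, H.Adj i j → ∃ a ∈ f i, ∃ b ∈ f j, G.Adj a b)) → H ∈ F m) ∧
    (∃ w : ℕ, ∀ (n : ℕ), ∀ G ∈ F n, TreewidthLE w G) ∧
    (x = sInf {c : ℝ | 0 ≤ c ∧ ∀ᶠ n in Filter.atTop, ∀ G ∈ F n,
        (G.edgeSet.ncard : ℝ) ≤ c * n})

end Pool.Agent.Work.MP_216d61_lc
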