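import Pool.Agent.Work.MP_216d61_lc.Defs
import Pool.Agent.Work.MP_216d61_lc_helper79.BWDefs
import Pool.Agent.Work.MP_216d61_lc_helper79.Final2
import Pool.Agent.Work.MP_216d61_lc_helper52.TWM

/-!
# Densities of classes of bounded treewidth: plain form
-/

set_option autoImplicit false

namespace Pool.Agent.Work.MP_216d61_lc

open Set

theorem twle_of_treewidthLE {w n : ℕ} {G : SimpleGraph (Fin n)} (h : TreewidthLE w G) :
    TWle w G := by
  classical
  obtain ⟨K, e, hK, hv⟩ := h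
  refine ⟨e.symm, fun v => Finset.univ.filter fun u => u < v ∧ K.Adj (e.symm u) (e.symm v),
    ?_, ?_, ?_, ?_⟩
  · intro v u hu
    exact (Finset.mem_filter.1 hu).2.1
  · intro v
    have h1 := (hv (e.symm v)).2
    rw [Set.ncard_eq_toFinset_card'] at h1
    refine le_trans (Finset.card_le_card_of_injOn e.symm ?_ e.symm.injective.injOn) h1
    intro u hu
    rw [Finset.mem_coe, Finset.mem_filter] at hu
    rw [Finset.mem_coe, Set.mem_toFinset]
    exact ⟨hu.2.2, by simpa using hu.2.1⟩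
  · intro v u hu u' hu' huu
    rw [Finset.mem_filter] at hu hu' ⊢
    refine ⟨Finset.mem_univ _, huu, ?_⟩
    refine (hv (e.symm v)).1 ⟨hu'.2.2, by simpa using hu'.2.1⟩ ⟨hu.2.2, by simpa using hu.2.1⟩ ?_
    exact fun h => huu.ne (e.symm.injective h)
  · intro u v huv hadj
    rw [Finset.mem_filter]
    exact ⟨Finset.mem_univ _, huv, hK hadj⟩

theorem treewidthLE_of_twle {w n : ℕ} {G : SimpleGraph (Fin n)} (h : TWle w G) :
    TreewidthLE w G := by
  classical
  obtain ⟨e, N, h1, h2, h3, h4⟩ := h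
  refine ⟨⟨fun x y => e.symm x ∈ N (e.symm y) ∨ e.symm y ∈ N (e.symm x),
    ⟨fun x y h => h.symm⟩, ⟨fun x h => ?_⟩⟩, e.symm, ?_, fun v => ?_⟩
  · rcases h with h | h <;> exact (h1 _ _ h).ne rfl
  · intro x y hxy
    rcases lt_trichotomy (e.symm x) (e.symm y) with h | h | h
    · left
      exact h4 _ _ h (by simpa using hxy)
    · exact absurd (e.symm.injective h) hxy.ne
    · right
      exact h4 _ _ h (by simpa using hxy.symm)
  · have hset : {u | (e.symm u ∈ N (e.symm v) ∨ e.symm v ∈ N (e.symm u)) ∧ e.symm u < e.symm v} =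
        e '' (N (e.symm v) : Set (Fin n)) := by
      ext u
      constructor
      · rintro ⟨h | h, hlt⟩
        · exact ⟨e.symm u, h, by simp⟩
        · exact absurd (h1 _ _ h) (not_lt.2 hlt.le)
      · rintro ⟨u', hu', rfl⟩
        have hu'' : u' ∈ N (e.symm v) := hu'
        exact ⟨Or.inl (by simpa using hu''), by simpa using h1 _ _ hu''⟩
    change (SimpleGraph.IsClique _ {u | (e.symm u ∈ N (e.symm v) ∨ e.symm v ∈ N (e.symm u)) ∧
      e.symm u < e.symm v}) ∧ ({u | (e.symm u ∈ N (e.symm v) ∨ e.symm v ∈ N (e.symm u)) ∧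
      e.symm u < e.symm v}).ncard ≤ w
    rw [hset]
    constructor
    · rintro _ ⟨a, ha, rfl⟩ _ ⟨b, hb, rfl⟩ hab
      change e.symm (e a) ∈ N (e.symm (e b)) ∨ e.symm (e b) ∈ N (e.symm (e a))
      rw [Equiv.symm_apply_apply, Equiv.symm_apply_apply]
      rcases lt_trichotomy a b with h | h | h
      · exact Or.inl (h3 _ _ hb _ ha h)
      · exact absurd (by rw [h]) hab
      · exact Or.inr (h3 _ _ ha _ hb h)
    · rw [Set.ncard_image_of_injective _ e.injective, Set.ncard_coe_finset]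
      exact h2 _

theorem treewidthLE_iff {w n : ℕ} {G : SimpleGraph (Fin n)} : TreewidthLE w G ↔ TWle w G :=
  ⟨twle_of_treewidthLE, treewidthLE_of_twle⟩

theorem isBTD_iff {x : ℝ} : IsBoundedTreewidthDensity x ↔ IsBW x := by
  constructor
  · rintro ⟨F, h1, ⟨w, hw⟩, h3⟩
    exact ⟨w, F, h1, fun n G hG => treewidthLE_iff.1 (hw n G hG), h3⟩
  · rintro ⟨w, F, h1, hw, h3⟩
    exact ⟨F, h1, ⟨w, fun n G hG => treewidthLE_iff.2 (hw n G hG)⟩, h3⟩

theorem isBTD_iff_BT (a b : ℕ) : IsBoundedTreewidthDensity ((a : ℝ) / ((b : ℝ) + 1)) ↔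
    BT ((a : ℝ) / ((b : ℝ) + 1)) := by
  rw [isBTD_iff, BT_iff stmt_TWM]

theorem rePred_isBTD :
    REPred fun p : ℕ × ℕ => IsBoundedTreewidthDensity ((p.1 : ℝ) / ((p.2 : ℝ) + 1)) := by
  have h : (fun p : ℕ × ℕ => IsBoundedTreewidthDensity ((p.1 : ℝ) / ((p.2 : ℝ) + 1))) =
      fun p : ℕ × ℕ => BT ((p.1 : ℝ) / ((p.2 : ℝ) + 1)) := by
    funext p
    exact propext (isBTD_iff_BT p.1 p.2)
  rw [h]
  exact rePred_BT

theorem top_not_treewidthLE (w : ℕ) : ¬ TreewidthLE w (⊤ : SimpleGraph (Fin (w + 2))) := by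
  rintro ⟨K, e, hK, hv⟩
  have h1 := (hv (e.symm (Fin.last _))).2
  have h2 : (Set.univ \ {e.symm (Fin.last _)} : Set (Fin (w + 2))) ⊆
      {u | K.Adj u (e.symm (Fin.last _)) ∧ e u < e (e.symm (Fin.last _))} := by
    rintro u ⟨-, hu⟩
    have hu' : u ≠ e.symm (Fin.last _) := hu
    refine ⟨hK hu', ?_⟩
    rw [Equiv.apply_symm_apply]
    refine lt_of_le_of_ne (Fin.le_last _) fun h => hu' ?_
    rw [← h, Equiv.symm_apply_apply]
  have h3 := Set.ncard_le_ncard h2
  have h4 : (Set.univ \ {e.symm (Fin.last _)} : Set (Fin (w + 2))).ncard = w + 1 := by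
    rw [Set.ncard_diff_singleton_of_mem (Set.mem_univ _), Set.ncard_univ, Nat.card_eq_fintype_card,
      Fintype.card_fin]
    rfl
  omega

/-- Classes of bounded treewidth are proper. -/
theorem isLimitingDensity_of_isBTD {x : ℝ} (h : IsBoundedTreewidthDensity x) :
    IsLimitingDensity x := by
  obtain ⟨F, h1, ⟨w, hw⟩, h3⟩ := h
  exact ⟨F, h1, ⟨w + 2, ⊤, fun hG => top_not_treewidthLE w (hw _ _ hG)⟩, h3⟩

theorem computable_of_isBTD (h : ∀ a b : ℕ, IsLimitingDensity ((a : ℝ) / ((b : ℝ) + 1)) →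
    IsBoundedTreewidthDensity ((a : ℝ) / ((b : ℝ) + 1))) :
    ComputablePred fun p : ℕ × ℕ => IsLimitingDensity ((p.1 : ℝ) / ((p.2 : ℝ) + 1)) :=
  computable_of_BT fun a b hd => (isBTD_iff_BT a b).1 (h a b hd)

end Pool.Agent.Work.MP_216d61_lc
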