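import Pool.Agent.Work.MP_216d61_lc_helper79.GlueE

/-!
# Block FI: finite index
-/

set_option autoImplicit false

namespace Pool.Agent.Work.MP_216d61_lc

open Function Relation

/-- the graph on roots and inner vertices -/
def BG {R C : Type} (H : SimpleGraph C) (A : R → C → Prop) : SimpleGraph (R ⊕ C) := Glue ⊥ id H A

/-- the inner part of the branch set `j` -/
def SJ {R C : Type} (β : R → Option R) (h : R → Set C) (j : R) : Set (R ⊕ C) :=
  {x | match x with
    | .inl a => β a = some j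
    | .inr c => c ∈ h j}

@[simp] theorem SJ_inl {R C : Type} (β : R → Option R) (h : R → Set C) (j a : R) :
    (.inl a : R ⊕ C) ∈ SJ β h j ↔ β a = some j := Iff.rfl

@[simp] theorem SJ_inr {R C : Type} (β : R → Option R) (h : R → Set C) (j : R) (c : C) :
    (.inr c : R ⊕ C) ∈ SJ β h j ↔ c ∈ h j := Iff.rfl

/-- linked inside `S` -/
def Lk {V : Type} (G : SimpleGraph V) (S : Set V) : V → V → Prop :=
  ReflTransGen (fun x y => G.Adj x y ∧ x ∈ S ∧ y ∈ S)

theorem Lk.symm {V : Type} {G : SimpleGraph V} {S : Set V} {x y : V} (h : Lk G S x y) :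
    Lk G S y x := link_symm h

structure Inner {R C : Type} (H : SimpleGraph C) (A : R → C → Prop) (β : R → Option R)
    (π α : R → R → Prop) {Wi : Type} (Ki : SimpleGraph Wi) (h : R → Set C) (g : Wi → Set C)
    (T : R → Wi → Prop) : Prop where
  hh : ∀ j j', j ≠ j' → Disjoint (h j) (h j')
  gg : ∀ i i', i ≠ i' → Disjoint (g i) (g i')
  hg : ∀ j i, Disjoint (h j) (g i)
  conn : ∀ i, Conn H (g i)
  adj : ∀ i i', Ki.Adj i i' → ∃ c ∈ g i, ∃ c' ∈ g i', H.Adj c c'
  tadj : ∀ j i, T j i → ∃ x ∈ SJ β h j, ∃ c ∈ g i, (BG H A).Adj x (.inr c)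
  link : ∀ j, ∀ c ∈ h j, ∃ a, β a = some j ∧ Lk (BG H A) (SJ β h j) (.inl a) (.inr c)
  pi : ∀ a a', π a a' → ∃ j, β a = some j ∧ β a' = some j ∧
    Lk (BG H A) (SJ β h j) (.inl a) (.inl a')
  al : ∀ j j', α j j' → ∃ x ∈ SJ β h j, ∃ y ∈ SJ β h j', (BG H A).Adj x y

/-- the representatives of the boundary branch sets -/
abbrev JJ {R : Type} (β : R → Option R) : Type := {j : R // ∃ a, β a = some j}

/-- one step in the outer part of a branch set -/
def OStep {R V : Type} (Z : SimpleGraph V) (l : R → V) (π : R → R → Prop) (S : Set V) (x y : V) :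
    Prop := (Z.Adj x y ∨ ∃ a a', x = l a ∧ y = l a' ∧ π a a') ∧ x ∈ S ∧ y ∈ S

structure Outer {R V : Type} (Z : SimpleGraph V) (l : R → V) (β : R → Option R)
    (π α : R → R → Prop) {Wz : Type} (Kz : SimpleGraph Wz) (F : Wz → Set V) (ω : JJ β → Wz) :
    Prop where
  disj : ∀ w w', w ≠ w' → Disjoint (F w) (F w')
  ne : ∀ w, (F w).Nonempty
  inj : Injective ω
  mem : ∀ a j (h : β a = some j), l a ∈ F (ω ⟨j, a, h⟩)
  conn : ∀ w, ∀ v ∈ F w, ∀ v' ∈ F w, ReflTransGen (OStep Z l π (F w)) v v'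
  adj : ∀ w w', Kz.Adj w w' → (∃ v ∈ F w, ∃ v' ∈ F w', Z.Adj v v') ∨
    (∃ j j' : JJ β, ω j = w ∧ ω j' = w' ∧ α j.1 j'.1)

section rec

variable {R C V Wz Wi : Type} {H : SimpleGraph C} {A : R → C → Prop} {β : R → Option R}
  {π α : R → R → Prop} {Ki : SimpleGraph Wi} {h : R → Set C} {g : Wi → Set C} {T : R → Wi → Prop}
  {Z : SimpleGraph V} {l : R → V} {Kz : SimpleGraph Wz} {F : Wz → Set V} {ω : JJ β → Wz}

/-- the branch sets of the combined model -/
def fcomb (h : R → Set C) (g : Wi → Set C) (F : Wz → Set V) (ω : JJ β → Wz) :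
    Wz ⊕ Wi → Set (V ⊕ C)
  | .inl w => {x | match x with
    | .inl v => v ∈ F w
    | .inr c => ∃ j : JJ β, ω j = w ∧ c ∈ h j.1}
  | .inr i => {x | match x with
    | .inl _ => False
    | .inr c => c ∈ g i}

theorem bg_glue {x y : R ⊕ C} (hxy : (BG H A).Adj x y) :
    (Glue Z l H A).Adj (Sum.map l id x) (Sum.map l id y) := by
  rcases x with a | c <;> rcases y with a' | c'
  · exact hxy.elim
  · obtain ⟨b, hb, hA⟩ := hxy
    exact ⟨b, congrArg l hb, hA⟩
  · obtain ⟨b, hb, hA⟩ := hxy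
    exact ⟨b, congrArg l hb, hA⟩
  · exact hxy

theorem SJ_fcomb (ho : Outer Z l β π α Kz F ω) (j : JJ β) {x : R ⊕ C} (hx : x ∈ SJ β h j.1) :
    Sum.map l id x ∈ fcomb h g F ω (.inl (ω j)) := by
  rcases x with a | c
  · have h1 := ho.mem a j.1 hx
    exact h1
  · exact ⟨j, rfl, hx⟩

theorem rec_link (ho : Outer Z l β π α Kz F ω) (j : JJ β) {x y : R ⊕ C}
    (hxy : Lk (BG H A) (SJ β h j.1) x y) :
    Lk (Glue Z l H A) (fcomb h g F ω (.inl (ω j))) (Sum.map l id x) (Sum.map l id y) := by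
  refine ReflTransGen.lift (Sum.map l id) ?_ _ _ hxy
  intro x y hxy
  exact ⟨bg_glue hxy.1, SJ_fcomb ho j hxy.2.1, SJ_fcomb ho j hxy.2.2⟩

theorem rec_minor (ho : Outer Z l β π α Kz F ω) (hi : Inner H A β π α Ki h g T) :
    Minor (Glue Kz ω Ki (fun j i => T j.1 i)) (Glue Z l H A) := by
  have hFw : ∀ (w : Wz) (a j : R) (hj : β a = some j), l a ∈ F w → ω ⟨j, a, hj⟩ = w := by
    intro w a j hj ha
    by_contra hne
    exact Set.disjoint_left.1 (ho.disj _ _ hne) (ho.mem a j hj) ha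
  have hlinkV : ∀ (w : Wz) (v v' : V), ReflTransGen (OStep Z l π (F w)) v v' →
      Lk (Glue Z l H A) (fcomb h g F ω (.inl w)) (.inl v) (.inl v') := by
    intro w v v' hvv
    induction hvv with
    | refl => exact ReflTransGen.refl
    | @tail x y _ hst ih =>
      refine ih.trans ?_
      rcases hst.1 with h1 | ⟨a, a', rfl, rfl, h1⟩
      · exact ReflTransGen.single ⟨h1, hst.2.1, hst.2.2⟩
      · obtain ⟨j, h2, h3, h4⟩ := hi.pi a a' h1
        have h5 := hFw w a j h2 hst.2.1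
        have h6 := rec_link (g := g) ho ⟨j, a, h2⟩ h4
        rw [h5] at h6
        exact h6
  refine Model.minor (f := fcomb h g F ω) ⟨?_, ?_, ?_⟩
  · rintro (w | i) (w' | i') hne <;> rw [Set.disjoint_left]
    · have hww : w ≠ w' := fun h => hne (congrArg _ h)
      rintro (v | c) hx hx'
      · exact Set.disjoint_left.1 (ho.disj _ _ hww) hx hx'
      · obtain ⟨j, rfl, hj⟩ := hx
        obtain ⟨j', rfl, hj'⟩ := hx'
        have hjj : j.1 ≠ j'.1 := fun h => hww (congrArg ω (Subtype.ext h))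
        exact Set.disjoint_left.1 (hi.hh _ _ hjj) hj hj'
    · rintro (v | c) hx hx'
      · exact hx'
      · obtain ⟨j, rfl, hj⟩ := hx
        exact Set.disjoint_left.1 (hi.hg _ _) hj hx'
    · rintro (v | c) hx' hx
      · exact hx'
      · obtain ⟨j, rfl, hj⟩ := hx
        exact Set.disjoint_left.1 (hi.hg _ _) hj hx'
    · have hii : i ≠ i' := fun h => hne (congrArg _ h)
      rintro (v | c) hx hx'
      · exact hx'
      · exact Set.disjoint_left.1 (hi.gg _ _ hii) hx hx'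
  · rintro (w | i)
    · obtain ⟨v0, hv0⟩ := ho.ne w
      refine conn_of_center (x0 := .inl v0) hv0 ?_
      rintro (v | c) hx
      · exact hlinkV w v v0 (ho.conn w v hx v0 hv0)
      · obtain ⟨j, rfl, hj⟩ := hx
        obtain ⟨a, ha, hlk⟩ := hi.link j.1 c hj
        have h1 := rec_link (g := g) ho j hlk
        have h2 := hlinkV (ω j) (l a) v0 (ho.conn _ _ (ho.mem a j.1 ha) v0 hv0)
        exact (Lk.symm h1).trans h2
    · have h1 := (hi.conn i).image (K := Glue Z l H A) Sum.inr fun a _ b _ hab => hab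
      convert h1 using 1
      ext x
      rcases x with v | c
      · simp [fcomb]
      · simp [fcomb]
  · rintro (w | i) (w' | i') hadj
    · rcases ho.adj w w' hadj with ⟨v, hv, v', hv', h1⟩ | ⟨j, j', rfl, rfl, h1⟩
      · exact ⟨.inl v, hv, .inl v', hv', h1⟩
      · obtain ⟨x, hx, y, hy, hxy⟩ := hi.al _ _ h1
        exact ⟨_, SJ_fcomb ho j hx, _, SJ_fcomb ho j' hy, bg_glue hxy⟩
    · obtain ⟨j, rfl, h1⟩ := hadj
      obtain ⟨x, hx, c, hc, hxc⟩ := hi.tadj _ _ h1
      exact ⟨_, SJ_fcomb ho j hx, .inr c, hc, bg_glue hxc⟩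
    · obtain ⟨j, rfl, h1⟩ := hadj
      obtain ⟨x, hx, c, hc, hxc⟩ := hi.tadj _ _ h1
      exact ⟨.inr c, hc, _, SJ_fcomb ho j hx, (bg_glue hxc).symm⟩
    · obtain ⟨c, hc, c', hc', h1⟩ := hi.adj _ _ hadj
      exact ⟨.inr c, hc, .inr c', hc', h1⟩

end rec

end Pool.Agent.Work.MP_216d61_lc
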