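import Pool.Agent.Work.MP_216d61_lc_helper79.FI0

/-!
# Block FI: extraction of the data from a minor of a gluing
-/

set_option autoImplicit false

namespace Pool.Agent.Work.MP_216d61_lc

open Function Relation

section ext

variable {R C V W : Type} {H : SimpleGraph C} {A : R → C → Prop}
  {Z : SimpleGraph V} {l : R → V} {K : SimpleGraph W} {f : W → Set (V ⊕ C)}

/-- What we need from the choice of representatives. -/
structure BSpec (l : R → V) (f : W → Set (V ⊕ C)) (β : R → Option R) : Prop where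
  some : ∀ a j, β a = some j → ∃ w, (.inl (l a) : V ⊕ C) ∈ f w ∧ (.inl (l j) : V ⊕ C) ∈ f w
  ex : ∀ a w, (.inl (l a) : V ⊕ C) ∈ f w → ∃ j, β a = Option.some j
  eq : ∀ a a' w, (.inl (l a) : V ⊕ C) ∈ f w → (.inl (l a') : V ⊕ C) ∈ f w → β a = β a'

theorem exists_bspec (l : R → V) (hm : Model K (Glue Z l H A) f) : ∃ β, BSpec l f β := by
  classical
  have h1 : ∀ w : {w // ∃ a, (.inl (l a) : V ⊕ C) ∈ f w}, ∃ a, (.inl (l a) : V ⊕ C) ∈ f w.1 :=
    fun w => w.2
  choose lab hlab using h1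
  have key : ∀ a w (h : (.inl (l a) : V ⊕ C) ∈ f w),
      (if h : ∃ w, (.inl (l a) : V ⊕ C) ∈ f w then some (lab ⟨h.choose, a, h.choose_spec⟩)
        else none) = some (lab ⟨w, a, h⟩) := by
    intro a w h
    rw [dif_pos ⟨w, h⟩]
    have h2 : (⟨w, h⟩ : ∃ w, (.inl (l a) : V ⊕ C) ∈ f w).choose = w := by
      have h3 := (⟨w, h⟩ : ∃ w, (.inl (l a) : V ⊕ C) ∈ f w).choose_spec
      exact hm.eq_of_mem h3 h
    congr 2
    exact Subtype.ext h2
  refine ⟨fun a => if h : ∃ w, (.inl (l a) : V ⊕ C) ∈ f w then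
    some (lab ⟨h.choose, a, h.choose_spec⟩) else none, ?_, ?_, ?_⟩
  · intro a j hj
    split_ifs at hj with h
    refine ⟨h.choose, h.choose_spec, ?_⟩
    have h2 := Option.some_injective _ hj
    rw [← h2]
    exact hlab ⟨h.choose, a, h.choose_spec⟩
  · intro a w h
    exact ⟨_, key a w h⟩
  · intro a a' w h h'
    rw [key a w h, key a' w h']

/-- the set `h j` -/
def hset (l : R → V) (f : W → Set (V ⊕ C)) (β : R → Option R) (j : R) : Set C :=
  {c | (∃ a, β a = some j) ∧ ∃ w, (.inr c : V ⊕ C) ∈ f w ∧ (.inl (l j) : V ⊕ C) ∈ f w}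

/-- the relation `π` -/
def piX (H : SimpleGraph C) (A : R → C → Prop) (l : R → V) (f : W → Set (V ⊕ C))
    (β : R → Option R) (a a' : R) : Prop :=
  ∃ j, β a = some j ∧ β a' = some j ∧ Lk (BG H A) (SJ β (hset l f β) j) (.inl a) (.inl a')

/-- Walking through a branch set. -/
theorem walk (hm : Model K (Glue Z l H A) f) {β : R → Option R} (hb : BSpec l f β) (w : W)
    (v0 : V) {x : V ⊕ C} (h : Lk (Glue Z l H A) (f w) (.inl v0) x) :
    match x with
    | .inl v => ReflTransGen (OStep Z l (piX H A l f β) {v | (.inl v : V ⊕ C) ∈ f w}) v0 v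
    | .inr c => ∃ a j, (.inl (l a) : V ⊕ C) ∈ f w ∧ ReflTransGen
        (OStep Z l (piX H A l f β) {v | (.inl v : V ⊕ C) ∈ f w}) v0 (l a) ∧ β a = some j ∧
        c ∈ hset l f β j ∧ Lk (BG H A) (SJ β (hset l f β) j) (.inl a) (.inr c) := by
  induction h with
  | refl => exact ReflTransGen.refl
  | @tail x y _ hst ih =>
    obtain ⟨hadj, hx, hy⟩ := hst
    rcases x with v | c <;> rcases y with v' | c'
    · simp only at ih ⊢
      exact ih.tail ⟨Or.inl hadj, hx, hy⟩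
    · simp only at ih ⊢
      obtain ⟨a, ha, hA⟩ := hadj
      subst ha
      obtain ⟨j, hj⟩ := hb.ex a w hx
      obtain ⟨w', h1, h2⟩ := hb.some a j hj
      have h3 : w' = w := hm.eq_of_mem h1 hx
      subst h3
      have hc : c' ∈ hset l f β j := ⟨⟨a, hj⟩, w', hy, h2⟩
      exact ⟨a, j, hx, ih, hj, hc, ReflTransGen.single ⟨⟨a, rfl, hA⟩, hj, hc⟩⟩
    · simp only at ih ⊢
      obtain ⟨a, j, h1, h2, h3, h4, h5⟩ := ih
      obtain ⟨a', ha', hA⟩ := hadj
      subst ha'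
      have h6 : β a' = some j := by rw [← h3]; exact hb.eq a' a w hy h1
      refine h2.tail ⟨Or.inr ⟨a, a', rfl, rfl, j, h3, h6, ?_⟩, h1, hy⟩
      exact h5.tail ⟨⟨a', rfl, hA⟩, h4, h6⟩
    · simp only at ih ⊢
      obtain ⟨a, j, h1, h2, h3, h4, h5⟩ := ih
      obtain ⟨_, w', h6, h7⟩ := h4
      have h8 : w' = w := hm.eq_of_mem h6 hx
      subst h8
      have hc : c' ∈ hset l f β j := ⟨⟨a, h3⟩, w', hy, h7⟩
      exact ⟨a, j, h1, h2, h3, hc, h5.tail ⟨hadj, ⟨⟨a, h3⟩, w', h6, h7⟩, hc⟩⟩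

theorem extraction [Fintype R] [Fintype W] (hm : Model K (Glue Z l H A) f) :
    ∃ (β : R → Option R) (π α : R → R → Prop) (Wz Wi : Type) (_ : Fintype Wz) (_ : Fintype Wi)
      (Kz : SimpleGraph Wz) (Ki : SimpleGraph Wi) (F : Wz → Set V) (ω : JJ β → Wz)
      (h : R → Set C) (g : Wi → Set C) (T : R → Wi → Prop),
      Outer Z l β π α Kz F ω ∧ Inner H A β π α Ki h g T ∧
      Fintype.card W = Fintype.card Wz + Fintype.card Wi ∧ e2 K ≤ e2 Kz + tau2 Ki T := by
  classical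
  obtain ⟨β, hb⟩ := exists_bspec l hm
  let hs : R → Set C := hset l f β
  let Wz : Type := {w : W // ∃ v, (.inl v : V ⊕ C) ∈ f w}
  let Wi : Type := {w : W // ¬ ∃ v, (.inl v : V ⊕ C) ∈ f w}
  let F : Wz → Set V := fun w => {v | (.inl v : V ⊕ C) ∈ f w.1}
  let g : Wi → Set C := fun w => {c | (.inr c : V ⊕ C) ∈ f w.1}
  have hω : ∀ j : JJ β, ∃ w : Wz, (.inl (l j.1) : V ⊕ C) ∈ f w.1 := by
    rintro ⟨j, a, ha⟩
    obtain ⟨w, h1, h2⟩ := hb.some a j ha
    exact ⟨⟨w, _, h1⟩, h2⟩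
  choose ω hω using hω
  have hωeq : ∀ (j : JJ β) (w : W), (.inl (l j.1) : V ⊕ C) ∈ f w → (ω j).1 = w := fun j w hw =>
    hm.eq_of_mem (hω j) hw
  -- points of a branch set with a point in `V`
  have hin : ∀ (w : Wz) (c : C), (.inr c : V ⊕ C) ∈ f w.1 → ∃ (a : R) (j : R) (hj : β a = some j),
      ω ⟨j, a, hj⟩ = w ∧ c ∈ hs j ∧ Lk (BG H A) (SJ β hs j) (.inl a) (.inr c) := by
    intro w c hc
    obtain ⟨v, hv⟩ := w.2
    obtain ⟨a, j, h1, -, h3, h4, h5⟩ := walk hm hb w.1 v ((hm.conn w.1).2 _ hv _ hc)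
    refine ⟨a, j, h3, Subtype.ext (hωeq ⟨j, a, h3⟩ w.1 ?_), h4, h5⟩
    obtain ⟨w', h6, h7⟩ := hb.some a j h3
    have h8 : w' = w.1 := hm.eq_of_mem h6 h1
    rw [← h8]
    exact h7
  have hlab : ∀ (w : Wz) (a : R), (.inl (l a) : V ⊕ C) ∈ f w.1 → ∃ (j : R) (hj : β a = some j),
      ω ⟨j, a, hj⟩ = w := by
    intro w a ha
    obtain ⟨j, hj⟩ := hb.ex a w.1 ha
    refine ⟨j, hj, Subtype.ext (hωeq ⟨j, a, hj⟩ w.1 ?_)⟩
    obtain ⟨w', h6, h7⟩ := hb.some a j hj
    have h8 : w' = w.1 := hm.eq_of_mem h6 ha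
    rw [← h8]
    exact h7
  have hpt : ∀ (w : Wz) (x : R ⊕ C), Sum.map l id x ∈ f w.1 → ∃ j : JJ β, ω j = w ∧
      x ∈ SJ β hs j.1 := by
    intro w x hx
    rcases x with a | c
    · obtain ⟨j, hj, h1⟩ := hlab w a hx
      exact ⟨⟨j, a, hj⟩, h1, hj⟩
    · obtain ⟨a, j, hj, h1, h2, -⟩ := hin w c hx
      exact ⟨⟨j, a, hj⟩, h1, h2⟩
  have hhs : ∀ j j', j ≠ j' → Disjoint (hs j) (hs j') := by
    intro j j' hne
    rw [Set.disjoint_left]
    rintro c ⟨⟨a, ha⟩, w, h1, h2⟩ ⟨⟨a', ha'⟩, w', h1', h2'⟩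
    have h3 : w = w' := hm.eq_of_mem h1 h1'
    subst h3
    obtain ⟨w1, h4, h5⟩ := hb.some a j ha
    have h6 : w1 = w := hm.eq_of_mem h5 h2
    subst h6
    obtain ⟨w2, h7, h8⟩ := hb.some a' j' ha'
    have h9 : w2 = w1 := hm.eq_of_mem h8 h2'
    subst h9
    have h10 := hb.eq a a' w2 h4 h7
    rw [ha, ha'] at h10
    exact hne (Option.some_injective _ h10)
  refine ⟨β, piX H A l f β, fun j j' => ∃ x ∈ SJ β hs j, ∃ y ∈ SJ β hs j', (BG H A).Adj x y,
    Wz, Wi, inferInstance, inferInstance, K.comap Subtype.val, K.comap Subtype.val, F, ω, hs, g,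
    fun j i => ∃ x ∈ SJ β hs j, ∃ c ∈ g i, (BG H A).Adj x (.inr c), ?_, ?_, ?_, ?_⟩
  · refine ⟨?_, ?_, ?_, ?_, ?_, ?_⟩
    · intro w w' hne
      rw [Set.disjoint_left]
      intro v hv hv'
      exact hne (Subtype.ext (hm.eq_of_mem hv hv'))
    · intro w
      exact w.2
    · rintro ⟨j, a, ha⟩ ⟨j', a', ha'⟩ heq
      refine Subtype.ext ?_
      obtain ⟨w1, h4, h5⟩ := hb.some a j ha
      obtain ⟨w2, h7, h8⟩ := hb.some a' j' ha'
      have h9 := hωeq ⟨j, a, ha⟩ w1 h5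
      have h10 := hωeq ⟨j', a', ha'⟩ w2 h8
      rw [heq, h10] at h9
      subst h9
      have h11 := hb.eq a a' w2 h4 h7
      rw [ha, ha'] at h11
      exact Option.some_injective _ h11
    · intro a j ha
      obtain ⟨w1, h4, h5⟩ := hb.some a j ha
      have h9 := hωeq ⟨j, a, ha⟩ w1 h5
      show (.inl (l a) : V ⊕ C) ∈ f (ω ⟨j, a, ha⟩).1
      rw [h9]
      exact h4
    · intro w v hv v' hv'
      exact walk hm hb w.1 v ((hm.conn w.1).2 _ hv _ hv')
    · intro w w' hadj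
      obtain ⟨x, hx, y, hy, hxy⟩ := hm.adj _ _ hadj
      rcases x with v | c <;> rcases y with v' | c'
      · exact Or.inl ⟨v, hx, v', hy, hxy⟩
      · obtain ⟨a, ha, hA⟩ := hxy
        subst ha
        obtain ⟨j, h1, h2⟩ := hpt w (.inl a) hx
        obtain ⟨j', h1', h2'⟩ := hpt w' (.inr c') hy
        exact Or.inr ⟨j, j', h1, h1', _, h2, _, h2', ⟨a, rfl, hA⟩⟩
      · obtain ⟨a, ha, hA⟩ := hxy
        subst ha
        obtain ⟨j, h1, h2⟩ := hpt w (.inr c) hx
        obtain ⟨j', h1', h2'⟩ := hpt w' (.inl a) hy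
        exact Or.inr ⟨j, j', h1, h1', _, h2, _, h2', ⟨a, rfl, hA⟩⟩
      · obtain ⟨j, h1, h2⟩ := hpt w (.inr c) hx
        obtain ⟨j', h1', h2'⟩ := hpt w' (.inr c') hy
        exact Or.inr ⟨j, j', h1, h1', _, h2, _, h2', hxy⟩
  · refine ⟨hhs, ?_, ?_, ?_, ?_, fun j i h => h, ?_, fun a a' h => h, fun j j' h => h⟩
    · intro i i' hne
      rw [Set.disjoint_left]
      intro c hc hc'
      exact hne (Subtype.ext (hm.eq_of_mem hc hc'))
    · intro j i
      rw [Set.disjoint_left]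
      rintro c ⟨_, w, h1, h2⟩ hc
      have h3 : w = i.1 := hm.eq_of_mem h1 hc
      subst h3
      exact i.2 ⟨_, h2⟩
    · intro i
      have h0 := hm.conn i.1
      obtain ⟨x0, hx0⟩ := h0.1
      rcases x0 with v | c0
      · exact absurd ⟨v, hx0⟩ i.2
      refine ⟨⟨c0, hx0⟩, ?_⟩
      intro c hc d hd
      have h1 := h0.2 _ hc _ hd
      have key : ∀ y, Lk (Glue Z l H A) (f i.1) (.inr c) y → ∀ d, y = .inr d →
          ReflTransGen (fun a b => H.Adj a b ∧ a ∈ g i ∧ b ∈ g i) c d := by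
        intro y hy
        induction hy with
        | refl =>
          intro d hd
          rw [Sum.inr_injective hd]
        | @tail y z _ hst ih =>
          intro d hd
          subst hd
          rcases y with v | e
          · exact absurd ⟨v, hst.2.1⟩ i.2
          · exact (ih e rfl).tail ⟨hst.1, hst.2.1, hst.2.2⟩
      exact key _ h1 d rfl
    · intro i i' hadj
      obtain ⟨x, hx, y, hy, hxy⟩ := hm.adj _ _ hadj
      rcases x with v | c
      · exact absurd ⟨v, hx⟩ i.2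
      rcases y with v | c'
      · exact absurd ⟨v, hy⟩ i'.2
      exact ⟨c, hx, c', hy, hxy⟩
    · rintro j c ⟨⟨a0, ha0⟩, w, h1, h2⟩
      obtain ⟨a, j', hj, h3, h4, h5⟩ := hin ⟨w, _, h2⟩ c h1
      have h6 : c ∈ hs j := ⟨⟨a0, ha0⟩, w, h1, h2⟩
      have h7 : j' = j := by
        by_contra hne
        exact Set.disjoint_left.1 (hhs _ _ hne) h4 h6
      subst h7
      exact ⟨a, hj, h5⟩
  · rw [← Fintype.card_sum]
    exact Fintype.card_congr (Equiv.sumCompl fun w : W => ∃ v, (.inl v : V ⊕ C) ∈ f w).symm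
  · -- the number of edges
    have hinj : Injective (fun j : JJ β => j.1) := Subtype.val_injective
    have hωi : Injective ω := by
      rintro ⟨j, a, ha⟩ ⟨j', a', ha'⟩ heq
      refine Subtype.ext ?_
      obtain ⟨w1, h4, h5⟩ := hb.some a j ha
      obtain ⟨w2, h7, h8⟩ := hb.some a' j' ha'
      have h9 := hωeq ⟨j, a, ha⟩ w1 h5
      have h10 := hωeq ⟨j', a', ha'⟩ w2 h8
      rw [heq, h10] at h9
      subst h9
      have h11 := hb.eq a a' w2 h4 h7
      rw [ha, ha'] at h11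
      exact Option.some_injective _ h11
    have hcross : ∀ (w : Wz) (i : Wi), K.Adj w.1 i.1 → ∃ j : JJ β, ω j = w ∧
        ∃ x ∈ SJ β hs j.1, ∃ c ∈ g i, (BG H A).Adj x (.inr c) := by
      intro w i hadj
      obtain ⟨x, hx, y, hy, hxy⟩ := hm.adj _ _ hadj
      rcases y with v | c'
      · exact absurd ⟨v, hy⟩ i.2
      rcases x with v | c
      · obtain ⟨a, ha, hA⟩ := hxy
        subst ha
        obtain ⟨j, h1, h2⟩ := hpt w (.inl a) hx
        exact ⟨j, h1, _, h2, c', hy, a, rfl, hA⟩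
      · obtain ⟨j, h1, h2⟩ := hpt w (.inr c) hx
        exact ⟨j, h1, _, h2, c', hy, hxy⟩
    have h1 : e2 K ≤ e2 (Glue (K.comap (Subtype.val : Wz → W)) ω (K.comap (Subtype.val : Wi → W))
        (fun (j : JJ β) (i : Wi) => ∃ x ∈ SJ β hs j.1, ∃ c ∈ g i, (BG H A).Adj x (.inr c))) := by
      refine e2_le_of_inj (Equiv.sumCompl fun w : W => ∃ v, (.inl v : V ⊕ C) ∈ f w).symm
        (Equiv.injective _) ?_
      intro u v huv
      obtain ⟨u', rfl⟩ := (Equiv.sumCompl fun w : W => ∃ v, (.inl v : V ⊕ C) ∈ f w).surjective u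
      obtain ⟨v', rfl⟩ := (Equiv.sumCompl fun w : W => ∃ v, (.inl v : V ⊕ C) ∈ f w).surjective v
      rw [Equiv.symm_apply_apply, Equiv.symm_apply_apply]
      rcases u' with u' | u' <;> rcases v' with v' | v'
      · exact huv
      · exact hcross u' v' huv
      · exact hcross v' u' huv.symm
      · exact huv
    rw [e2_glue _ _ hωi] at h1
    refine h1.trans (Nat.add_le_add_left ?_ _)
    exact tau2_le_of_inj id Subtype.val injective_id Subtype.val_injective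
      (fun _ _ h => h) (fun _ _ h => h)

end ext

end Pool.Agent.Work.MP_216d61_lc
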