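import Pool.Agent.Work.MP_216d61_lc.Interface2

/-!
# Treewidth is monotone under minors
-/

set_option autoImplicit false

namespace Pool.Agent.Work.MP_216d61_lc

/-- **Block TWM**. Treewidth (defined by elimination orderings) is monotone under minors. -/
def Stmt_TWM : Prop :=
  ∀ (w n m : ℕ) (G : SimpleGraph (Fin n)) (H : SimpleGraph (Fin m)), TWle w G → Minor H G → TWle w H

end Pool.Agent.Work.MP_216d61_lc
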