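import Pool.Agent.Work.MP_216d61_lc.Interface2

/-!
# Terms and contexts
-/

set_option autoImplicit false

namespace Pool.Agent.Work.MP_216d61_lc

open Function

theorem MR_congr {ρ : ℝ} {V W : Type} {G : SimpleGraph V} {H : SimpleGraph W} (e : V ≃ W)
    (h : ∀ x y, G.Adj x y ↔ H.Adj (e x) (e y)) : MR ρ G ↔ MR ρ H := by
  constructor
  · intro hG
    refine hG.minor (minor_of_inj e.symm e.symm.injective fun x y hxy => ?_)
    rw [h, e.apply_symm_apply, e.apply_symm_apply]
    exact hxy
  · intro hH
    exact hH.minor (minor_of_inj e e.injective fun x y hxy => (h x y).1 hxy)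

section terms

variable {s : ℕ}

noncomputable instance Tm.fintypeI : (t : Tm s) → Fintype t.I
  | .leaf => (inferInstance : Fintype Empty)
  | .add _ _ t u =>
    have := Tm.fintypeI t
    have := Tm.fintypeI u
    (inferInstance : Fintype (Unit ⊕ (t.I ⊕ u.I)))

theorem Tm.card_I : (t : Tm s) → Nat.card t.I = t.size
  | .leaf => by
    show Nat.card Empty = 0
    simp
  | .add _ _ t u => by
    have h1 := Tm.card_I t
    have h2 := Tm.card_I u
    have : Finite t.I := inferInstance
    have : Finite u.I := inferInstance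
    show Nat.card (Unit ⊕ (t.I ⊕ u.I)) = 1 + (t.size + u.size)
    rw [Nat.card_sum, Nat.card_sum, h1, h2]
    simp

theorem Tm.fcard_I (t : Tm s) : Fintype.card t.I = t.size := by
  rw [← Nat.card_eq_fintype_card, t.card_I]

open Classical in
/-- `tau2` as a sum -/
theorem tau2_eq_sum {R C : Type*} [Fintype R] [Fintype C] (H : SimpleGraph C) (A : R → C → Prop) :
    tau2 H A = (∑ x, ∑ y, if H.Adj x y then 1 else 0) + 2 * ∑ a, ∑ y, if A a y then 1 else 0 := by
  rw [tau2, e2_eq_sum, Finset.card_filter, Fintype.sum_prod_type]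

/-- twice the number of edges of a term -/
theorem tau2_term : (t : Tm s) → tau2 t.H t.A = 2 * t.edg
  | .leaf => by
    have h1 := tau2_le (Tm.leaf : Tm s).H (Tm.leaf : Tm s).A
    rw [Tm.fcard_I] at h1
    simp only [Tm.size, Tm.edg] at h1 ⊢
    omega
  | .add a E t u => by
    classical
    have ht := tau2_term t
    have hu := tau2_term u
    rw [tau2_eq_sum] at ht hu
    have h0 : tau2 (Tm.add a E t u).H (Tm.add a E t u).A =
        (∑ x : Unit ⊕ (t.I ⊕ u.I), ∑ y : Unit ⊕ (t.I ⊕ u.I),
          if (Tm.add a E t u).R x y then 1 else 0) +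
        2 * ∑ b, ∑ y : Unit ⊕ (t.I ⊕ u.I), if (Tm.add a E t u).A b y then 1 else 0 := by
      rw [tau2_eq_sum]
      rfl
    rw [h0]
    simp only [Fintype.sum_sum_type, Finset.univ_unique, Finset.sum_singleton]
    have e1 : ∀ c : t.I, (Tm.add a E t u).R (.inl default) (.inr (.inl c)) = t.A a c := fun _ => rfl
    have e2 : ∀ c : u.I, (Tm.add a E t u).R (.inl default) (.inr (.inr c)) = False := fun _ => rfl
    have e3 : ∀ c : t.I, (Tm.add a E t u).R (.inr (.inl c)) (.inl default) = t.A a c := fun _ => rfl
    have e4 : ∀ c : u.I, (Tm.add a E t u).R (.inr (.inr c)) (.inl default) = False := fun _ => rfl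
    have e5 : ∀ c d : t.I, (Tm.add a E t u).R (.inr (.inl c)) (.inr (.inl d)) = t.R c d :=
      fun _ _ => rfl
    have e6 : ∀ (c : t.I) (d : u.I), (Tm.add a E t u).R (.inr (.inl c)) (.inr (.inr d)) = False :=
      fun _ _ => rfl
    have e7 : ∀ (c : u.I) (d : t.I), (Tm.add a E t u).R (.inr (.inr c)) (.inr (.inl d)) = False :=
      fun _ _ => rfl
    have e8 : ∀ c d : u.I, (Tm.add a E t u).R (.inr (.inr c)) (.inr (.inr d)) = u.R c d :=
      fun _ _ => rfl
    have e9 : (Tm.add a E t u).R (.inl default) (.inl default) = False := rfl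
    have f1 : ∀ b, (Tm.add a E t u).A b (.inl default) = (b ∈ E ∧ b ≠ a) := fun _ => rfl
    have f2 : ∀ b (c : t.I), (Tm.add a E t u).A b (.inr (.inl c)) = (b ≠ a ∧ t.A b c) :=
      fun _ _ => rfl
    have f3 : ∀ b (c : u.I), (Tm.add a E t u).A b (.inr (.inr c)) = u.A b c := fun _ _ => rfl
    simp only [e1, e2, e3, e4, e5, e6, e7, e8, e9, f1, f2, f3, if_false, Finset.sum_const_zero,
      zero_add, add_zero, Finset.sum_add_distrib]
    have g1 : (∑ b : Fin s, if (b ∈ E ∧ b ≠ a) then 1 else 0) = (E.erase a).card := by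
      rw [← Finset.card_filter]
      congr 1
      ext b
      simp [and_comm]
    have g2 : (∑ b : Fin s, ∑ c : t.I, if (b ≠ a ∧ t.A b c) then 1 else 0) +
        (∑ c : t.I, if t.A a c then 1 else 0) = ∑ b : Fin s, ∑ c : t.I, if t.A b c then 1 else 0 := by
      rw [← Finset.add_sum_erase Finset.univ (fun b => ∑ c : t.I, if t.A b c then 1 else 0)
        (Finset.mem_univ a), add_comm]
      congr 1
      rw [← Finset.add_sum_erase Finset.univ _ (Finset.mem_univ a)]
      have g3 : (∑ c : t.I, if (a ≠ a ∧ t.A a c) then 1 else 0) = 0 :=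
        Finset.sum_eq_zero fun c _ => if_neg fun h => h.1 rfl
      rw [g3, zero_add]
      refine Finset.sum_congr rfl fun b hb => Finset.sum_congr rfl fun c _ => ?_
      have hne : b ≠ a := (Finset.mem_erase.1 hb).1
      simp [hne]
    have ht' : (∑ x : t.I, ∑ y : t.I, if t.R x y then 1 else 0) +
        2 * ∑ b : Fin s, ∑ y : t.I, (if t.A b y then 1 else 0) = 2 * t.edg := ht
    have hu' : (∑ x : u.I, ∑ y : u.I, if u.R x y then 1 else 0) +
        2 * ∑ b : Fin s, ∑ y : u.I, (if u.A b y then 1 else 0) = 2 * u.edg := hu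
    rw [g1]
    simp only [Tm.edg]
    omega

/-! ### Contexts -/

/-- the new vertices of a context -/
def Ctx.I : Ctx s → Type
  | .hole => Empty
  | .left _ _ c u => Unit ⊕ (c.I ⊕ u.I)
  | .right _ _ t c => Unit ⊕ (t.I ⊕ c.I)

def Ctx.A : (c : Ctx s) → Fin s → c.I → Prop
  | .hole => fun _ x => x.elim
  | .left a E c u => fun b x => match x with
    | .inl _ => b ∈ E ∧ b ≠ a
    | .inr (.inl x) => b ≠ a ∧ c.A b x
    | .inr (.inr x) => u.A b x
  | .right a E t c => fun b x => match x with
    | .inl _ => b ∈ E ∧ b ≠ a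
    | .inr (.inl x) => b ≠ a ∧ t.A b x
    | .inr (.inr x) => c.A b x

def Ctx.R : (c : Ctx s) → c.I → c.I → Prop
  | .hole => fun x _ => x.elim
  | .left a _ c u => fun x y => match x, y with
    | .inl _, .inl _ => False
    | .inl _, .inr (.inl y) => c.A a y
    | .inl _, .inr (.inr _) => False
    | .inr (.inl x), .inl _ => c.A a x
    | .inr (.inr _), .inl _ => False
    | .inr (.inl x), .inr (.inl y) => c.R x y
    | .inr (.inl _), .inr (.inr _) => False
    | .inr (.inr _), .inr (.inl _) => False
    | .inr (.inr x), .inr (.inr y) => u.R x y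
  | .right a _ t c => fun x y => match x, y with
    | .inl _, .inl _ => False
    | .inl _, .inr (.inl y) => t.A a y
    | .inl _, .inr (.inr _) => False
    | .inr (.inl x), .inl _ => t.A a x
    | .inr (.inr _), .inl _ => False
    | .inr (.inl x), .inr (.inl y) => t.R x y
    | .inr (.inl _), .inr (.inr _) => False
    | .inr (.inr _), .inr (.inl _) => False
    | .inr (.inr x), .inr (.inr y) => c.R x y

/-- the labels at the hole -/
def Ctx.l : (c : Ctx s) → Fin s → Fin s ⊕ c.I
  | .hole => Sum.inl
  | .left a _ c _ => fun b => match c.l b with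
    | .inl b' => if b' = a then .inr (.inl ()) else .inl b'
    | .inr x => .inr (.inr (.inl x))
  | .right _ _ _ c => fun b => match c.l b with
    | .inl b' => .inl b'
    | .inr x => .inr (.inr (.inr x))

/-- the map from the parts to the whole -/
def Ctx.pi : (c : Ctx s) → (t : Tm s) → c.I ⊕ t.I → (c.plug t).I
  | .hole, _ => fun x => match x with
    | .inl x => x.elim
    | .inr y => y
  | .left _ _ c _, t => fun x => match x with
    | .inl (.inl _) => .inl ()
    | .inl (.inr (.inl x)) => .inr (.inl (c.pi t (.inl x)))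
    | .inl (.inr (.inr x)) => .inr (.inr x)
    | .inr y => .inr (.inl (c.pi t (.inr y)))
  | .right _ _ _ c, t => fun x => match x with
    | .inl (.inl _) => .inl ()
    | .inl (.inr (.inl x)) => .inr (.inl x)
    | .inl (.inr (.inr x)) => .inr (.inr (c.pi t (.inl x)))
    | .inr y => .inr (.inr (c.pi t (.inr y)))

theorem Ctx.pi_injective : (c : Ctx s) → (t : Tm s) → Injective (c.pi t)
  | .hole, _ => by
    rintro (x | x) (y | y) h
    · exact x.elim
    · exact x.elim
    · exact y.elim
    · exact congrArg Sum.inr h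
  | .left a E c u, t => by
    have ih := Ctx.pi_injective c t
    rintro ((x | x | x) | x) ((y | y | y) | y) h
    · rfl
    · exact absurd h (by exact Sum.inl_ne_inr)
    · exact absurd h (by exact Sum.inl_ne_inr)
    · exact absurd h (by exact Sum.inl_ne_inr)
    · exact absurd h (by exact Sum.inr_ne_inl)
    · have h1 := ih (Sum.inl_injective (Sum.inr_injective h))
      rw [Sum.inl_injective h1]
    · exact absurd (Sum.inr_injective h) (by exact Sum.inl_ne_inr)
    · have h1 := ih (Sum.inl_injective (Sum.inr_injective h))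
      exact absurd h1 Sum.inl_ne_inr
    · exact absurd h (by exact Sum.inr_ne_inl)
    · exact absurd (Sum.inr_injective h) (by exact Sum.inr_ne_inl)
    · rw [Sum.inr_injective (Sum.inr_injective h)]
    · exact absurd (Sum.inr_injective h) (by exact Sum.inr_ne_inl)
    · exact absurd h (by exact Sum.inr_ne_inl)
    · have h1 := ih (Sum.inl_injective (Sum.inr_injective h))
      exact absurd h1 Sum.inr_ne_inl
    · exact absurd (Sum.inr_injective h) (by exact Sum.inl_ne_inr)
    · have h1 := ih (Sum.inl_injective (Sum.inr_injective h))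
      rw [Sum.inr_injective h1]
  | .right a E u c, t => by
    have ih := Ctx.pi_injective c t
    rintro ((x | x | x) | x) ((y | y | y) | y) h
    · rfl
    · exact absurd h (by exact Sum.inl_ne_inr)
    · exact absurd h (by exact Sum.inl_ne_inr)
    · exact absurd h (by exact Sum.inl_ne_inr)
    · exact absurd h (by exact Sum.inr_ne_inl)
    · rw [Sum.inl_injective (Sum.inr_injective h)]
    · exact absurd (Sum.inr_injective h) (by exact Sum.inl_ne_inr)
    · exact absurd (Sum.inr_injective h) (by exact Sum.inl_ne_inr)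
    · exact absurd h (by exact Sum.inr_ne_inl)
    · exact absurd (Sum.inr_injective h) (by exact Sum.inr_ne_inl)
    · have h1 := ih (Sum.inr_injective (Sum.inr_injective h))
      rw [Sum.inl_injective h1]
    · have h1 := ih (Sum.inr_injective (Sum.inr_injective h))
      exact absurd h1 Sum.inl_ne_inr
    · exact absurd h (by exact Sum.inr_ne_inl)
    · exact absurd (Sum.inr_injective h) (by exact Sum.inr_ne_inl)
    · have h1 := ih (Sum.inr_injective (Sum.inr_injective h))
      exact absurd h1 Sum.inr_ne_inl
    · have h1 := ih (Sum.inr_injective (Sum.inr_injective h))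
      rw [Sum.inr_injective h1]

theorem Ctx.pi_surjective : (c : Ctx s) → (t : Tm s) → Surjective (c.pi t)
  | .hole, _ => fun y => ⟨.inr y, rfl⟩
  | .left a E c u, t => by
    have ih := Ctx.pi_surjective c t
    rintro (y | y | y)
    · exact ⟨.inl (.inl y), rfl⟩
    · obtain ⟨x | x, hx⟩ := ih y
      · exact ⟨.inl (.inr (.inl x)), congrArg (fun z => Sum.inr (Sum.inl z)) hx⟩
      · exact ⟨.inr x, congrArg (fun z => Sum.inr (Sum.inl z)) hx⟩
    · exact ⟨.inl (.inr (.inr y)), rfl⟩
  | .right a E u c, t => by
    have ih := Ctx.pi_surjective c t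
    rintro (y | y | y)
    · exact ⟨.inl (.inl y), rfl⟩
    · exact ⟨.inl (.inr (.inl y)), rfl⟩
    · obtain ⟨x | x, hx⟩ := ih y
      · exact ⟨.inl (.inr (.inr x)), congrArg (fun z => Sum.inr (Sum.inr z)) hx⟩
      · exact ⟨.inr x, congrArg (fun z => Sum.inr (Sum.inr z)) hx⟩

theorem Ctx.l_inl : (c : Ctx s) → ∀ b b', c.l b = .inl b' → b' = b
  | .hole, b, b', h => (Sum.inl_injective h).symm
  | .left a E c u, b, b', h => by
    have ih := Ctx.l_inl c b
    simp only [Ctx.l] at h
    rcases hl : c.l b with b'' | x
    · rw [hl] at h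
      simp only at h
      split_ifs at h with h1
      have h2 := Sum.inl_injective h
      rw [← h2]
      exact ih _ hl
    · rw [hl] at h
      exact absurd h Sum.inr_ne_inl
  | .right a E u c, b, b', h => by
    have ih := Ctx.l_inl c b
    simp only [Ctx.l] at h
    rcases hl : c.l b with b'' | x
    · rw [hl] at h
      have h2 := Sum.inl_injective h
      rw [← h2]
      exact ih _ hl
    · rw [hl] at h
      exact absurd h Sum.inr_ne_inl

theorem Ctx.l_injective : (c : Ctx s) → Injective c.l
  | .hole => Sum.inl_injective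
  | .left a E c u => by
    have ih := Ctx.l_injective c
    intro b b' h
    apply ih
    simp only [Ctx.l] at h
    rcases hl : c.l b with b1 | x <;> rcases hl' : c.l b' with b2 | x'
    · rw [hl, hl'] at h
      simp only at h
      split_ifs at h with h1 h2 h2
      · rw [h1, h2]
      · exact congrArg Sum.inl (Sum.inl_injective h)
    · rw [hl, hl'] at h
      simp only at h
      split_ifs at h with h1
      exact absurd (Sum.inr_injective h) Sum.inl_ne_inr
    · rw [hl, hl'] at h
      simp only at h
      split_ifs at h with h1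
      exact absurd (Sum.inr_injective h) Sum.inr_ne_inl
    · rw [hl, hl'] at h
      rw [Sum.inl_injective (Sum.inr_injective (Sum.inr_injective h))]
  | .right a E u c => by
    have ih := Ctx.l_injective c
    intro b b' h
    apply ih
    simp only [Ctx.l] at h
    rcases hl : c.l b with b1 | x <;> rcases hl' : c.l b' with b2 | x'
    · rw [hl, hl'] at h
      exact congrArg Sum.inl (Sum.inl_injective h)
    · rw [hl, hl'] at h
      exact absurd h Sum.inl_ne_inr
    · rw [hl, hl'] at h
      exact absurd h Sum.inr_ne_inl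
    · rw [hl, hl'] at h
      rw [Sum.inr_injective (Sum.inr_injective (Sum.inr_injective h))]

theorem Ctx.A_inl : (c : Ctx s) → (t : Tm s) → ∀ b x,
    (c.plug t).A b (c.pi t (.inl x)) ↔ c.A b x
  | .hole, _, _, x => x.elim
  | .left a E c u, t, b, x => by
    have ih := Ctx.A_inl c t b
    rcases x with x | x | x
    · exact Iff.rfl
    · exact and_congr_right fun _ => ih x
    · exact Iff.rfl
  | .right a E u c, t, b, x => by
    have ih := Ctx.A_inl c t b
    rcases x with x | x | x
    · exact Iff.rfl
    · exact Iff.rfl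
    · exact ih x

theorem Ctx.A_inr : (c : Ctx s) → (t : Tm s) → ∀ b y,
    (c.plug t).A b (c.pi t (.inr y)) ↔ c.l b = .inl b ∧ t.A b y
  | .hole, _, b, y => by
    show _ ↔ _
    constructor
    · exact fun h => ⟨rfl, h⟩
    · exact fun h => h.2
  | .left a E c u, t, b, y => by
    have ih := Ctx.A_inr c t b y
    show b ≠ a ∧ (c.plug t).A b (c.pi t (.inr y)) ↔ _
    rw [ih]
    simp only [Ctx.l]
    rcases hl : c.l b with b1 | x
    · have h1 := c.l_inl b b1 hl
      subst h1
      simp only
      by_cases h2 : b1 = a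
      · simp [h2]
      · simp [h2]
    · simp
  | .right a E u c, t, b, y => by
    have ih := Ctx.A_inr c t b y
    show (c.plug t).A b (c.pi t (.inr y)) ↔ _
    rw [ih]
    simp only [Ctx.l]
    rcases hl : c.l b with b1 | x
    · simp
    · simp

theorem Ctx.R_inl_inl : (c : Ctx s) → (t : Tm s) → ∀ x x',
    (c.plug t).R (c.pi t (.inl x)) (c.pi t (.inl x')) ↔ c.R x x'
  | .hole, _, x, _ => x.elim
  | .left a E c u, t, x, x' => by
    rcases x with x | x | x <;> rcases x' with x' | x' | x'
    · exact Iff.rfl
    · exact c.A_inl t a x'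
    · exact Iff.rfl
    · exact c.A_inl t a x
    · exact Ctx.R_inl_inl c t x x'
    · exact Iff.rfl
    · exact Iff.rfl
    · exact Iff.rfl
    · exact Iff.rfl
  | .right a E u c, t, x, x' => by
    rcases x with x | x | x <;> rcases x' with x' | x' | x'
    · exact Iff.rfl
    · exact Iff.rfl
    · exact Iff.rfl
    · exact Iff.rfl
    · exact Iff.rfl
    · exact Iff.rfl
    · exact Iff.rfl
    · exact Iff.rfl
    · exact Ctx.R_inl_inl c t x x'

theorem Ctx.R_inr_inr : (c : Ctx s) → (t : Tm s) → ∀ y y',
    (c.plug t).R (c.pi t (.inr y)) (c.pi t (.inr y')) ↔ t.R y y'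
  | .hole, _, _, _ => Iff.rfl
  | .left _ _ c _, t, y, y' => Ctx.R_inr_inr c t y y'
  | .right _ _ _ c, t, y, y' => Ctx.R_inr_inr c t y y'

theorem Ctx.R_inl_inr : (c : Ctx s) → (t : Tm s) → ∀ x y,
    (c.plug t).R (c.pi t (.inl x)) (c.pi t (.inr y)) ↔ ∃ b, c.l b = .inr x ∧ t.A b y
  | .hole, _, x, _ => x.elim
  | .left a E c u, t, x, y => by
    have ih := Ctx.R_inl_inr c t
    rcases x with x | x | x
    · show (c.plug t).A a (c.pi t (.inr y)) ↔ _
      rw [c.A_inr]
      constructor
      · rintro ⟨h1, h2⟩
        refine ⟨a, ?_, h2⟩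
        simp only [Ctx.l, h1]
        rw [if_pos trivial]
      · rintro ⟨b, h1, h2⟩
        simp only [Ctx.l] at h1
        rcases hl : c.l b with b1 | z
        · rw [hl] at h1
          simp only at h1
          split_ifs at h1 with h3
          have h4 := c.l_inl b b1 hl
          subst h4
          subst h3
          exact ⟨hl, h2⟩
        · rw [hl] at h1
          exact absurd (Sum.inr_injective h1) Sum.inr_ne_inl
    · show (c.plug t).R (c.pi t (.inl x)) (c.pi t (.inr y)) ↔ _
      rw [ih]
      refine exists_congr fun b => and_congr_left fun _ => ?_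
      simp only [Ctx.l]
      rcases hl : c.l b with b1 | z
      · simp only
        split_ifs
        · refine ⟨fun h => (by cases h), fun h => ?_⟩
          exact absurd (Sum.inr_injective h) Sum.inl_ne_inr
        · exact ⟨fun h => (by cases h), fun h => (by cases h)⟩
      · exact ⟨fun h => by rw [Sum.inr_injective h],
          fun h => by rw [Sum.inl_injective (Sum.inr_injective (Sum.inr_injective h))]⟩
    · show False ↔ _
      refine ⟨False.elim, ?_⟩
      rintro ⟨b, h1, _⟩
      simp only [Ctx.l] at h1
      rcases hl : c.l b with b1 | z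
      · rw [hl] at h1
        simp only at h1
        split_ifs at h1 with h3
        exact absurd (Sum.inr_injective h1) Sum.inl_ne_inr
      · rw [hl] at h1
        exact absurd (Sum.inr_injective (Sum.inr_injective h1)) Sum.inl_ne_inr
  | .right a E u c, t, x, y => by
    have ih := Ctx.R_inl_inr c t
    rcases x with x | x | x
    · show False ↔ _
      refine ⟨False.elim, ?_⟩
      rintro ⟨b, h1, _⟩
      simp only [Ctx.l] at h1
      rcases hl : c.l b with b1 | z
      · rw [hl] at h1
        exact absurd h1 Sum.inl_ne_inr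
      · rw [hl] at h1
        exact absurd (Sum.inr_injective h1) Sum.inr_ne_inl
    · show False ↔ _
      refine ⟨False.elim, ?_⟩
      rintro ⟨b, h1, _⟩
      simp only [Ctx.l] at h1
      rcases hl : c.l b with b1 | z
      · rw [hl] at h1
        exact absurd h1 Sum.inl_ne_inr
      · rw [hl] at h1
        exact absurd (Sum.inr_injective (Sum.inr_injective h1)) Sum.inr_ne_inl
    · show (c.plug t).R (c.pi t (.inl x)) (c.pi t (.inr y)) ↔ _
      rw [ih]
      refine exists_congr fun b => and_congr_left fun _ => ?_
      simp only [Ctx.l]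
      rcases hl : c.l b with b1 | z
      · exact ⟨fun h => absurd h Sum.inl_ne_inr, fun h => absurd h Sum.inl_ne_inr⟩
      · exact ⟨fun h => by rw [Sum.inr_injective h],
          fun h => by rw [Sum.inr_injective (Sum.inr_injective (Sum.inr_injective h))]⟩

end terms

end Pool.Agent.Work.MP_216d61_lc
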