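import Pool.Agent.Work.MP_216d61_lc_helper79.GlueE

/-!
# Block TM: a pumpable context without deficiency exists
-/

set_option autoImplicit false

namespace Pool.Agent.Work.MP_216d61_lc

open Function

section ctx

variable {s : ℕ}

theorem Ctx.R_symm : ∀ (c : Ctx s) (x y : c.I), c.R x y → c.R y x
  | .hole, x, _, _ => x.elim
  | .left _ _ c u, x, y, h => by
    rcases x with x | x | x <;> rcases y with y | y | y
    · exact h
    · exact h
    · exact h
    · exact h
    · exact Ctx.R_symm c _ _ h
    · exact h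
    · exact h
    · exact h
    · exact Tm.R_symm u _ _ h
  | .right _ _ t c, x, y, h => by
    rcases x with x | x | x <;> rcases y with y | y | y
    · exact h
    · exact h
    · exact h
    · exact h
    · exact Tm.R_symm t _ _ h
    · exact h
    · exact h
    · exact h
    · exact Ctx.R_symm c _ _ h

theorem Ctx.R_irrefl : ∀ (c : Ctx s) (x : c.I), ¬ c.R x x
  | .hole, x => x.elim
  | .left _ _ c u, x => by
    rcases x with x | x | x
    · exact fun h => h
    · exact Ctx.R_irrefl c _
    · exact Tm.R_irrefl u _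
  | .right _ _ t c, x => by
    rcases x with x | x | x
    · exact fun h => h
    · exact Tm.R_irrefl t _
    · exact Ctx.R_irrefl c _

/-- the graph on the new vertices of a context -/
def Ctx.H (c : Ctx s) : SimpleGraph c.I where
  Adj := c.R
  symm := ⟨fun _ _ h => c.R_symm _ _ h⟩
  loopless := ⟨fun _ h => c.R_irrefl _ h⟩

/-- the labelling of the hole when the context is glued along `l` -/
def Ctx.lift {V : Type} (c : Ctx s) (l : Fin s → V) (b : Fin s) : V ⊕ c.I :=
  match c.l b with
  | .inl b' => .inl (l b')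
  | .inr x => .inr x

theorem Ctx.lift_injective {V : Type} (c : Ctx s) (l : Fin s → V) (hl : Injective l) :
    Injective (c.lift l) := by
  intro b b' h
  apply c.l_injective
  simp only [Ctx.lift] at h
  rcases h1 : c.l b with x | x <;> rcases h2 : c.l b' with y | y
  · rw [h1, h2] at h
    rw [hl (Sum.inl_injective h)]
  · rw [h1, h2] at h
    exact absurd h Sum.inl_ne_inr
  · rw [h1, h2] at h
    exact absurd h Sum.inr_ne_inl
  · rw [h1, h2] at h
    rw [Sum.inr_injective h]

theorem Ctx.lift_eq_inl {V : Type} (c : Ctx s) (l : Fin s → V) (b : Fin s) (v : V) :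
    c.lift l b = .inl v ↔ c.l b = .inl b ∧ l b = v := by
  simp only [Ctx.lift]
  rcases h1 : c.l b with x | x
  · have h2 := c.l_inl b x h1
    subst h2
    simp
  · simp

theorem Ctx.lift_eq_inr {V : Type} (c : Ctx s) (l : Fin s → V) (b : Fin s) (x : c.I) :
    c.lift l b = .inr x ↔ c.l b = .inr x := by
  simp only [Ctx.lift]
  rcases h1 : c.l b with y | y
  · simp
  · simp

/-- Gluing a plugged term. -/
theorem MR_glue_plug {ρ : ℝ} {V : Type} (Z : SimpleGraph V) (l : Fin s → V) (c : Ctx s)
    (t : Tm s) : MR ρ (Glue Z l (c.plug t).H (c.plug t).A) ↔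
      MR ρ (Glue (Glue Z l c.H c.A) (c.lift l) t.H t.A) := by
  symm
  refine MR_congr ((Equiv.sumAssoc V c.I t.I).trans (Equiv.sumCongr (Equiv.refl V)
    (Equiv.ofBijective (c.pi t) ⟨c.pi_injective t, c.pi_surjective t⟩))) ?_
  have key : ∀ (v : V) (y : t.I), (∃ b, c.lift l b = .inl v ∧ t.A b y) ↔
      ∃ b, l b = v ∧ (c.plug t).A b (c.pi t (.inr y)) := by
    intro v y
    refine exists_congr fun b => ?_
    rw [c.lift_eq_inl, c.A_inr]
    tauto
  have key2 : ∀ (x : c.I) (y : t.I), (∃ b, c.lift l b = .inr x ∧ t.A b y) ↔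
      (c.plug t).R (c.pi t (.inl x)) (c.pi t (.inr y)) := by
    intro x y
    rw [c.R_inl_inr]
    refine exists_congr fun b => ?_
    rw [c.lift_eq_inr]
  rintro ((v | x) | y) ((v' | x') | y')
  · exact Iff.rfl
  · show (∃ b, l b = v ∧ c.A b x') ↔ ∃ b, l b = v ∧ (c.plug t).A b (c.pi t (.inl x'))
    exact exists_congr fun b => and_congr_right fun _ => (c.A_inl t b x').symm
  · exact key v y'
  · show (∃ b, l b = v' ∧ c.A b x) ↔ ∃ b, l b = v' ∧ (c.plug t).A b (c.pi t (.inl x))
    exact exists_congr fun b => and_congr_right fun _ => (c.A_inl t b x).symm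
  · exact (c.R_inl_inl t x x').symm
  · exact key2 x y'
  · exact key v' y
  · refine (key2 x' y).trans ?_
    exact ⟨fun h => (c.plug t).R_symm _ _ h, fun h => (c.plug t).R_symm _ _ h⟩
  · exact (c.R_inr_inr t y y').symm

theorem TEq.symm {ρ : ℝ} {t t' : Tm s} (h : TEq ρ t t') : TEq ρ t' t :=
  fun V Z l hl => (h V Z l hl).symm

theorem TEq.trans {ρ : ℝ} {t t' t'' : Tm s} (h : TEq ρ t t') (h' : TEq ρ t' t'') : TEq ρ t t'' :=
  fun V Z l hl => (h V Z l hl).trans (h' V Z l hl)

/-- Congruence. -/
theorem TEq.plug {ρ : ℝ} {t t' : Tm s} (h : TEq ρ t t') (c : Ctx s) :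
    TEq ρ (c.plug t) (c.plug t') := by
  intro V Z l hl
  rw [MR_glue_plug, MR_glue_plug]
  exact h _ _ _ (c.lift_injective l hl)

theorem TEq.MR_B {ρ : ℝ} {t t' : Tm s} (h : TEq ρ t t') (ht : MR ρ t.B) : MR ρ t'.B :=
  (h _ _ _ injective_id).1 ht

/-- the gluing of a term contains the boundaried graph of the term -/
theorem MR_B_of_glue {ρ : ℝ} {V : Type} (Z : SimpleGraph V) (l : Fin s → V) (hl : Injective l)
    (t : Tm s) (h : MR ρ (Glue Z l t.H t.A)) : MR ρ t.B := by
  refine h.minor (minor_of_inj (Sum.map l id) (Sum.map_injective.2 ⟨hl, injective_id⟩) ?_)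
  rintro (v | x) (v' | x') hx
  · exact hx.elim
  · obtain ⟨b, hb, hA⟩ := hx
    exact ⟨b, congrArg l hb, hA⟩
  · obtain ⟨b, hb, hA⟩ := hx
    exact ⟨b, congrArg l hb, hA⟩
  · exact hx

/-- Subterms. -/
theorem MR_B_of_plug {ρ : ℝ} (c : Ctx s) (t : Tm s) (h : MR ρ (c.plug t).B) : MR ρ t.B := by
  have h1 : MR ρ (Glue ⊥ id (c.plug t).H (c.plug t).A) := h
  rw [MR_glue_plug] at h1
  exact MR_B_of_glue _ _ (c.lift_injective _ injective_id) t h1

theorem Ctx.size_plug : (c : Ctx s) → (t : Tm s) → (c.plug t).size = c.size + t.size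
  | .hole, t => by simp [Ctx.plug, Ctx.size]
  | .left a E c u, t => by
    have := Ctx.size_plug c t
    simp only [Ctx.plug, Ctx.size, Tm.size]
    omega
  | .right a E u c, t => by
    have := Ctx.size_plug c t
    simp only [Ctx.plug, Ctx.size, Tm.size]
    omega

theorem Ctx.edg_plug : (c : Ctx s) → (t : Tm s) → (c.plug t).edg = c.edg + t.edg
  | .hole, t => by simp [Ctx.plug, Ctx.edg]
  | .left a E c u, t => by
    have := Ctx.edg_plug c t
    simp only [Ctx.plug, Ctx.edg, Tm.edg]
    omega
  | .right a E u c, t => by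
    have := Ctx.edg_plug c t
    simp only [Ctx.plug, Ctx.edg, Tm.edg]
    omega

/-- composition of contexts -/
def Ctx.comp : Ctx s → Ctx s → Ctx s
  | .hole, d => d
  | .left a E c u, d => .left a E (c.comp d) u
  | .right a E u c, d => .right a E u (c.comp d)

theorem Ctx.plug_comp : (c d : Ctx s) → (t : Tm s) → (c.comp d).plug t = c.plug (d.plug t)
  | .hole, _, _ => rfl
  | .left a E c u, d, t => by
    have := Ctx.plug_comp c d t
    simp only [Ctx.plug, Ctx.comp, this]
  | .right a E u c, d, t => by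
    have := Ctx.plug_comp c d t
    simp only [Ctx.plug, Ctx.comp, this]

theorem Ctx.size_pos (c : Ctx s) (h : c ≠ .hole) : 1 ≤ c.size := by
  cases c with
  | hole => exact absurd rfl h
  | left a E c u => simp only [Ctx.size]; omega
  | right a E u c => simp only [Ctx.size]; omega

theorem Ctx.ne_hole_of_size (c : Ctx s) (h : 1 ≤ c.size) : c ≠ .hole := by
  rintro rfl
  simp [Ctx.size] at h

/-- height -/
def Tm.ht : Tm s → ℕ
  | .leaf => 0
  | .add _ _ t u => 1 + max t.ht u.ht

theorem Tm.size_lt : (t : Tm s) → t.size + 1 ≤ 2 ^ t.ht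
  | .leaf => by simp [Tm.size, Tm.ht]
  | .add a E t u => by
    have h1 := Tm.size_lt t
    have h2 := Tm.size_lt u
    have h3 : 2 ^ t.ht ≤ 2 ^ (max t.ht u.ht) := Nat.pow_le_pow_right (by norm_num) (le_max_left _ _)
    have h4 : 2 ^ u.ht ≤ 2 ^ (max t.ht u.ht) := Nat.pow_le_pow_right (by norm_num) (le_max_right _ _)
    simp only [Tm.size, Tm.ht]
    rw [Nat.pow_add, pow_one]
    omega

/-- Going down along a longest branch. -/
theorem Tm.down (t : Tm s) (h : 1 ≤ t.ht) : ∃ (c : Ctx s) (t' : Tm s), 1 ≤ c.size ∧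
    t = c.plug t' ∧ t.ht = t'.ht + 1 := by
  cases t with
  | leaf => simp [Tm.ht] at h
  | add a E t u =>
    rcases le_total t.ht u.ht with h1 | h1
    · refine ⟨.right a E t .hole, u, ?_, rfl, ?_⟩
      · simp only [Ctx.size]; omega
      · simp only [Tm.ht]; omega
    · refine ⟨.left a E .hole u, t, ?_, rfl, ?_⟩
      · simp only [Ctx.size]; omega
      · simp only [Tm.ht]; omega

/-- Going down to a given height. -/
theorem Tm.down_to (n : ℕ) (t : Tm s) (h : n ≤ t.ht) : ∃ (c : Ctx s) (t' : Tm s),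
    t = c.plug t' ∧ t'.ht = n := by
  obtain ⟨k, hk⟩ := Nat.exists_eq_add_of_le h
  induction k generalizing t with
  | zero => exact ⟨.hole, t, rfl, by omega⟩
  | succ k ih =>
    obtain ⟨c, t', _, h2, h3⟩ := t.down (by omega)
    obtain ⟨c', t'', h4, h5⟩ := ih t' (by omega) (by omega)
    refine ⟨c.comp c', t'', ?_, h5⟩
    rw [Ctx.plug_comp, ← h4, h2]

/-- A branch of a term. -/
theorem Tm.branch (n : ℕ) (t : Tm s) (h : t.ht = n) : ∃ f : ℕ → Tm s, f 0 = t ∧
    ∀ i j, i < j → j ≤ n → ∃ c : Ctx s, 1 ≤ c.size ∧ f i = c.plug (f j) := by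
  induction n generalizing t with
  | zero => exact ⟨fun _ => t, rfl, fun i j h1 h2 => by omega⟩
  | succ n ih =>
    obtain ⟨c, t', h1, h2, h3⟩ := t.down (by omega)
    obtain ⟨f, h4, h5⟩ := ih t' (by omega)
    have h0 : ∀ j, j ≤ n → ∃ c : Ctx s, t' = c.plug (f j) := by
      intro j hj
      rcases Nat.eq_zero_or_pos j with h6 | h6
      · subst h6
        exact ⟨.hole, h4.symm⟩
      · obtain ⟨c', _, h7⟩ := h5 0 j h6 hj
        exact ⟨c', by rw [← h7, h4]⟩
    refine ⟨fun i => if i = 0 then t else f (i - 1), by simp, ?_⟩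
    intro i j hij hj
    have hj0 : j ≠ 0 := by omega
    by_cases hi : i = 0
    · obtain ⟨c', h7⟩ := h0 (j - 1) (by omega)
      refine ⟨c.comp c', ?_, ?_⟩
      · have e1 := Ctx.size_plug (c.comp c') (f (j - 1))
        rw [Ctx.plug_comp, ← h7, ← h2] at e1
        have e2 := Ctx.size_plug c t'
        have e3 := Ctx.size_plug c' (f (j - 1))
        rw [← h2] at e2
        rw [← h7] at e3
        omega
      · simp only [hi, hj0, if_true, if_false]
        rw [Ctx.plug_comp, ← h7, h2]
    · obtain ⟨c', h7, h8⟩ := h5 (i - 1) (j - 1) (by omega) (by omega)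
      refine ⟨c', h7, ?_⟩
      simp only [hi, hj0, if_false]
      exact h8

theorem stmt_TM (hFI : Stmt_FI) : Stmt_TM := by
  intro a b s hk
  by_contra hcon
  push Not at hcon
  set N := NB s a with hN
  have main : ∀ (n : ℕ) (t : Tm s), t.size = n → MR ((a : ℝ) / ((b : ℝ) + 1)) t.B →
      (t.size : ℤ) ≤ 2 ^ N * ((a : ℤ) * t.size - (b + 1) * t.edg + a * s + 1) := by
    intro n
    induction n using Nat.strong_induction_on with
    | _ n ih =>
      intro t htn ht
      rcases lt_or_ge t.ht N with hlt | hge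
      · have h1 := t.size_lt
        have h2 := t.edg_le ht
        have h3 : 2 ^ t.ht ≤ 2 ^ N := Nat.pow_le_pow_right (by norm_num) hlt.le
        have h4 : (t.size : ℤ) ≤ 2 ^ N := by
          have : t.size ≤ 2 ^ N := by omega
          exact_mod_cast this
        have h5 : (0 : ℤ) < 2 ^ N := by positivity
        nlinarith
      · obtain ⟨c0, t0, h1, h2⟩ := t.down_to N hge
        obtain ⟨f, h3, h4⟩ := t0.branch N h2
        obtain ⟨i, j, hij, hjN, heq⟩ := hFI a b (Fin s) (fun i => (f i).I) (fun i => (f i).H)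
          (fun i => (f i).A)
        rw [Fintype.card_fin] at hjN
        obtain ⟨c, hc1, hc2⟩ := h4 i j hij hjN
        have hc0 : ∃ d : Ctx s, t0 = d.plug (f i) := by
          rcases Nat.eq_zero_or_pos i with h6 | h6
          · subst h6
            exact ⟨.hole, h3.symm⟩
          · obtain ⟨c', _, h7⟩ := h4 0 i h6 (by omega)
            exact ⟨c', by rw [← h7, h3]⟩
        obtain ⟨d, hd⟩ := hc0
        have hteq : TEq ((a : ℝ) / ((b : ℝ) + 1)) (f i) (f j) := heq
        set t' := (c0.comp d).plug (f j) with ht'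
        have htt : t = (c0.comp d).plug (f i) := by rw [Ctx.plug_comp, ← hd, h1]
        have hMR' : MR ((a : ℝ) / ((b : ℝ) + 1)) t'.B := by
          have := (hteq.plug (c0.comp d)).MR_B
          rw [← htt] at this
          exact this ht
        have hMRj : MR ((a : ℝ) / ((b : ℝ) + 1)) (f j).B := MR_B_of_plug _ _ hMR'
        have e1 := Ctx.size_plug (c0.comp d) (f i)
        have e2 := Ctx.size_plug (c0.comp d) (f j)
        have e3 := Ctx.size_plug c (f j)
        have e4 := Ctx.edg_plug (c0.comp d) (f i)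
        have e5 := Ctx.edg_plug (c0.comp d) (f j)
        have e6 := Ctx.edg_plug c (f j)
        rw [← htt] at e1 e4
        rw [← ht'] at e2 e5
        rw [← hc2] at e3 e6
        have hlt : t'.size < n := by omega
        have h8 := ih _ hlt t' rfl hMR'
        have h9 := hcon c (f j) (c.ne_hole_of_size hc1) (by rw [← hc2]; exact hteq) hMRj
        have h10 := t0.size_lt
        rw [h2] at h10
        have e7 := Ctx.size_plug d (f i)
        rw [← hd] at e7
        have h11 : (c.size : ℤ) ≤ 2 ^ N := by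
          have : c.size ≤ 2 ^ N := by omega
          exact_mod_cast this
        have h12 : ((b : ℤ) + 1) * c.edg + 1 ≤ a * c.size := by exact_mod_cast h9
        have e8 : (t.size : ℤ) = t'.size + c.size := by
          have : t.size = t'.size + c.size := by omega
          exact_mod_cast this
        have e9 : (t.edg : ℤ) = t'.edg + c.edg := by
          have : t.edg = t'.edg + c.edg := by omega
          exact_mod_cast this
        rw [e8, e9]
        have h5 : (0 : ℤ) < 2 ^ N := by positivity
        nlinarith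
  obtain ⟨t, ht, hlt⟩ := hk (2 ^ N)
  have := main _ t rfl ht
  push_cast at hlt
  omega

end ctx

end Pool.Agent.Work.MP_216d61_lc
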